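import Pool.Agent.H591R3.PHG.Defs

/-!
# Truncated inclusion and exclusion in trees of NOR gates, counted by a finite automaton

The value of a NOR gate with at most `t` true children is
`∑ (-1) ^ |S|`, over the sets `S` of at most `t` true children. For a tree of gates this gives
a signed sum over certain subtrees. A subtree is written down as a string of bits in depth-first
order; `fstep` is the automaton which reads such a string.
-/

set_option autoImplicit false

namespace Pool.Agent.W911.GP

open Finset Pool.Agent.NPC Pool.Agent.H620R2.Gauge Pool.Agent.H591R3.PHG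

/-- The sum of `f` over all the strings of length `L`. -/
def tot : ℕ → (List Bool → ℤ) → ℤ
  | 0, f => f []
  | L + 1, f => tot L (fun w => f (false :: w)) + tot L (fun w => f (true :: w))

theorem tot_congr {f g : List Bool → ℤ} : ∀ (L : ℕ),
    (∀ w : List Bool, w.length = L → f w = g w) → tot L f = tot L g := by
  intro L
  induction L generalizing f g with
  | zero => intro h; exact h [] rfl
  | succ L ih =>
    intro h
    rw [tot, tot, ih (fun w hw => h (false :: w) (by simp [hw])),
      ih (fun w hw => h (true :: w) (by simp [hw]))]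

theorem tot_zero : ∀ L : ℕ, tot L (fun _ => 0) = 0 := by
  intro L
  induction L with
  | zero => rfl
  | succ L ih => rw [tot, ih, add_zero]

theorem tot_neg (f : List Bool → ℤ) : ∀ L : ℕ, tot L (fun w => - f w) = - tot L f := by
  intro L
  induction L generalizing f with
  | zero => rfl
  | succ L ih => rw [tot, tot, ih, ih]; ring

theorem tot_add (f g : List Bool → ℤ) : ∀ L : ℕ,
    tot L (fun w => f w + g w) = tot L f + tot L g := by
  intro L
  induction L generalizing f g with
  | zero => rfl
  | succ L ih => rw [tot, tot, tot, ih, ih]; ring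

theorem tot_one : ∀ L : ℕ, tot L (fun _ => 1) = 2 ^ L := by
  intro L
  induction L with
  | zero => rfl
  | succ L ih => rw [tot, ih, pow_succ]; ring

theorem tot_single : ∀ L : ℕ, tot L (fun w => if w.all (fun b => !b) then 1 else 0) = 1 := by
  intro L
  induction L with
  | zero => rfl
  | succ L ih =>
    have h2 : tot L (fun w => if (true :: w).all (fun b => !b) then (1 : ℤ) else 0) = 0 := by
      refine (tot_congr (g := fun _ => 0) L fun w _ => ?_).trans (tot_zero L)
      simp
    have h1 : tot L (fun w => if (false :: w).all (fun b => !b) then (1 : ℤ) else 0) = 1 := by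
      refine (tot_congr (g := fun w => if w.all (fun b => !b) then (1 : ℤ) else 0) L
        fun w _ => ?_).trans ih
      rw [List.all_cons]
      rfl
    rw [tot, h1, h2, add_zero]

/-- A truncated sum of inclusion and exclusion: the sum of the products of the numbers `- g i`
over the sets of at most `f` numbers `i` with `lo ≤ i < N`. -/
def Rv (N : ℕ) (g : ℕ → ℤ) : ℕ → ℕ → ℤ
  | 0, _ => 1
  | f + 1, lo => 1 + ∑ i ∈ Finset.Ico lo N, (- g i) * Rv N g f (i + 1)

theorem Rv_exact {N : ℕ} (b : ℕ → Bool) : ∀ (f lo : ℕ),
    ((Finset.Ico lo N).filter (fun i => b i = true)).card ≤ f →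
    Rv N (fun i => if b i then 1 else 0) f lo =
      if ∀ i ∈ Finset.Ico lo N, b i = false then 1 else 0 := by
  intro f
  induction f with
  | zero =>
    intro lo h
    have h1 : (Finset.Ico lo N).filter (fun i => b i = true) = ∅ :=
      Finset.card_eq_zero.1 (Nat.le_zero.1 h)
    rw [Rv, if_pos]
    intro i hi
    have h2 := Finset.filter_eq_empty_iff.1 h1 hi
    simpa using h2
  | succ f ih =>
    intro lo h
    rw [Rv]
    by_cases h0 : ∀ i ∈ Finset.Ico lo N, b i = false
    · rw [if_pos h0, Finset.sum_eq_zero, add_zero]
      intro i hi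
      rw [h0 i hi]
      simp
    · rw [if_neg h0]
      set F := (Finset.Ico lo N).filter (fun i => b i = true) with hF
      have hne : F.Nonempty := by
        by_contra hcon
        rw [Finset.not_nonempty_iff_eq_empty, hF, Finset.filter_eq_empty_iff] at hcon
        apply h0
        intro i hi
        simpa using hcon hi
      set M := F.max' hne with hM
      have hMF : M ∈ F := Finset.max'_mem _ _
      have hMF' := (Finset.mem_filter.1 hMF)
      have h1 : ∑ i ∈ Finset.Ico lo N, (- if b i = true then (1 : ℤ) else 0) *
          Rv N (fun i => if b i = true then 1 else 0) f (i + 1) = -1 := by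
        rw [Finset.sum_eq_single M]
        · have h2 : Rv N (fun i => if b i = true then 1 else 0) f (M + 1) = 1 := by
            have h4 : (Finset.Ico (M + 1) N).filter (fun i => b i = true) = ∅ := by
              rw [Finset.filter_eq_empty_iff]
              intro i hi hb
              rw [Finset.mem_Ico] at hi
              have h3 : i ∈ F := Finset.mem_filter.2 ⟨Finset.mem_Ico.2 ⟨by
                have := (Finset.mem_Ico.1 hMF'.1).1
                omega, hi.2⟩, hb⟩
              have := Finset.le_max' F i h3
              omega
            rw [ih (M + 1) (by rw [h4]; simp), if_pos]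
            intro i hi
            have h5 := Finset.filter_eq_empty_iff.1 h4 hi
            simpa using h5
          rw [h2, if_pos hMF'.2]
          norm_num
        · intro i hi hne'
          by_cases hb : b i = true
          · have hiF : i ∈ F := Finset.mem_filter.2 ⟨hi, hb⟩
            have hlt : i < M := lt_of_le_of_ne (Finset.le_max' F i hiF) hne'
            have hsub : (Finset.Ico (i + 1) N).filter (fun i => b i = true) ⊆ F.erase i := by
              intro j hj
              rw [Finset.mem_filter, Finset.mem_Ico] at hj
              rw [Finset.mem_erase]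
              refine ⟨by omega, Finset.mem_filter.2 ⟨Finset.mem_Ico.2 ⟨?_, hj.1.2⟩, hj.2⟩⟩
              have := (Finset.mem_Ico.1 hi).1
              omega
            have hcard : ((Finset.Ico (i + 1) N).filter (fun i => b i = true)).card ≤ f := by
              have h6 := Finset.card_le_card hsub
              rw [Finset.card_erase_of_mem hiF] at h6
              omega
            have h8 : ¬ ∀ j ∈ Finset.Ico (i + 1) N, b j = false := by
              intro hcon
              have h7 := hcon M (Finset.mem_Ico.2 ⟨by omega, (Finset.mem_Ico.1 hMF'.1).2⟩)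
              rw [hMF'.2] at h7
              simp at h7
            rw [ih (i + 1) hcard, if_neg h8, mul_zero]
          · rw [if_neg hb, neg_zero, zero_mul]
        · intro hcon
          exact absurd hMF'.1 hcon
      rw [h1]
      norm_num

/-- The signed count for a tree of NOR gates with the leaf values `v`; the list gives the
exponents of the numbers of children, from the root to the leaves. -/
def Gv (t : ℕ) (v : List Bool → Bool) : List ℕ → List Bool → ℤ
  | [], q => if v q then 1 else 0
  | a :: r, q => Rv (2 ^ a) (fun i => Gv t v r (q ++ bitsOf a i)) t 0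

/-- No gate of the tree with the root `q` has more than `t` true children. -/
def Few (t : ℕ) (v : List Bool → Bool) : List ℕ → List Bool → Prop
  | [], _ => True
  | a :: r, q => ((Finset.range (2 ^ a)).filter
      (fun i => (r.foldr up v) (q ++ bitsOf a i) = true)).card ≤ t ∧
      ∀ i < 2 ^ a, Few t v r (q ++ bitsOf a i)

theorem Gv_eq {t : ℕ} {v : List Bool → Bool} : ∀ (r : List ℕ) (q : List Bool), Few t v r q →
    Gv t v r q = if (r.foldr up v) q then 1 else 0 := by
  intro r
  induction r with
  | nil => intro q _; rfl
  | cons a r ih =>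
    intro q h
    obtain ⟨h1, h2⟩ := h
    have h3 : ∀ (f lo : ℕ), Rv (2 ^ a) (fun i => Gv t v r (q ++ bitsOf a i)) f lo =
        Rv (2 ^ a) (fun i => if (r.foldr up v) (q ++ bitsOf a i) then 1 else 0) f lo := by
      intro f
      induction f with
      | zero => intro lo; rfl
      | succ f ihf =>
        intro lo
        rw [Rv, Rv]
        congr 1
        refine Finset.sum_congr rfl fun i hi => ?_
        rw [ihf (i + 1), ih _ (h2 i (Finset.mem_Ico.1 hi).2)]
    have h4 : (Finset.Ico 0 (2 ^ a)) = Finset.range (2 ^ a) := by
      rw [Finset.range_eq_Ico]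
    rw [Gv, h3, Rv_exact (fun i => (r.foldr up v) (q ++ bitsOf a i)) t 0 (by rw [h4]; exact h1),
      h4]
    have h5 : ((a :: r).foldr up v) q = decide (∀ i < 2 ^ a, (r.foldr up v) (q ++ bitsOf a i) =
      false) := rfl
    rw [h5]
    simp only [Finset.mem_range, decide_eq_true_eq]

/-- A frame of the automaton: the exponents of the levels from this gate downwards, the address
of the gate, the least number of a child still allowed, the number of children still allowed, and
the bits already read. -/
abbrev Fr := List ℕ × List Bool × ℕ × ℕ × List Bool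

/-- A state of the automaton: whether the input can still be correct, the parity of the number of
the chosen nodes, the stack of the frames, and the chosen leaves. -/
abbrev St := Bool × Bool × List Fr × List (List Bool)

/-- One bit is read. -/
def fstep (t : ℕ) (σ : St) (b : Bool) : St :=
  match σ.2.2.1 with
  | [] => (σ.1 && !b, σ.2)
  | fr :: rest =>
    if fr.2.2.2.2 = [] ∧ b = false then (σ.1, σ.2.1, rest, σ.2.2.2)
    else if fr.2.2.2.1 = 0 then (false, σ.2)
    else if (fr.2.2.2.2 ++ [b]).length = fr.1.headD 0 + 1 then
      if valB (fr.2.2.2.2 ++ [b]).tail < fr.2.2.1 then (false, σ.2)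
      else (σ.1, !σ.2.1,
        (if fr.1.tail = [] then [] else
          [(fr.1.tail, fr.2.1 ++ (fr.2.2.2.2 ++ [b]).tail, 0, t, [])]) ++
          (fr.1, fr.2.1, valB (fr.2.2.2.2 ++ [b]).tail + 1, fr.2.2.2.1 - 1, []) :: rest,
        (if fr.1.tail = [] then [fr.2.1 ++ (fr.2.2.2.2 ++ [b]).tail] else []) ++ σ.2.2.2)
    else (σ.1, σ.2.1, (fr.1, fr.2.1, fr.2.2.1, fr.2.2.2.1, fr.2.2.2.2 ++ [b]) :: rest, σ.2.2.2)

/-- The weight of a final state. -/
def wgt (v : List Bool → Bool) (σ : St) : ℤ :=
  if σ.1 = true ∧ σ.2.2.1 = [] ∧ σ.2.2.2.all v = true then (if σ.2.1 then -1 else 1) else 0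

/-- the value of a frame -/
def fv (t : ℕ) (v : List Bool → Bool) : Fr → ℤ
  | ([], _, _, _, _) => 0
  | (a :: r, q, lo, f, p) =>
    if p = [] then Rv (2 ^ a) (fun i => Gv t v r (q ++ bitsOf a i)) f lo
    else ∑ i ∈ (Finset.Ico lo (2 ^ a)).filter (fun i => p.tail <+: bitsOf a i),
      (- Gv t v r (q ++ bitsOf a i)) *
        Rv (2 ^ a) (fun i => Gv t v r (q ++ bitsOf a i)) (f - 1) (i + 1)

/-- the bits needed for a gate -/
def nd (t : ℕ) : List ℕ → ℕ
  | [] => 0
  | a :: r => t * (1 + a + nd t r) + 1

/-- the bits needed for a frame -/
def fneed (t : ℕ) : Fr → ℕ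
  | ([], _, _, _, _) => 0
  | (a :: r, _, _, f, p) => f * (1 + a + nd t r) + 1 - p.length

/-- a proper frame -/
def FOK : Fr → Prop
  | ([], _, _, _, _) => False
  | (a :: _, _, _, f, p) => p.length ≤ a ∧ (p ≠ [] → 1 ≤ f)

/-- the value of a state -/
def SV (t : ℕ) (v : List Bool → Bool) (σ : St) : ℤ :=
  if σ.1 then (if σ.2.1 then -1 else 1) * (if σ.2.2.2.all v = true then 1 else 0) *
    (σ.2.2.1.map (fv t v)).prod else 0

/-- the bits needed for a state -/
def need (t : ℕ) (σ : St) : ℕ := (σ.2.2.1.map (fneed t)).sum

theorem dead_step (t : ℕ) (σ : St) (b : Bool) (h : σ.1 = false) : (fstep t σ b).1 = false := by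
  unfold fstep
  split
  · rw [h]; rfl
  · split_ifs <;> first | exact h | rfl

theorem dead_tot (t : ℕ) (v : List Bool → Bool) : ∀ (L : ℕ) (σ : St), σ.1 = false →
    tot L (fun w => wgt v (w.foldl (fstep t) σ)) = 0 := by
  intro L
  induction L with
  | zero =>
    intro σ h
    show wgt v σ = 0
    unfold wgt
    rw [if_neg]
    rw [h]
    simp
  | succ L ih =>
    intro σ h
    have h1 := ih (fstep t σ false) (dead_step t σ false h)
    have h2 := ih (fstep t σ true) (dead_step t σ true h)
    rw [tot]
    simp only [List.foldl_cons]
    rw [h1, h2, add_zero]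

theorem bitsOf_valB : ∀ p : List Bool, bitsOf p.length (valB p) = p := by
  intro p
  induction p with
  | nil => rfl
  | cons b p ih =>
    rw [List.length_cons, bitsOf, valB_cons]
    cases b with
    | false =>
      have h1 : ((if false = true then 1 else 0) + 2 * valB p) / 2 = valB p := by simp
      have h2 : (((if false = true then 1 else 0) + 2 * valB p) % 2 == 1) = false := by simp
      rw [h1, h2, ih]
    | true =>
      have h1 : ((if true = true then 1 else 0) + 2 * valB p) / 2 = valB p := by
        rw [if_pos rfl]; omega
      have h2 : (((if true = true then 1 else 0) + 2 * valB p) % 2 == 1) = true := by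
        rw [if_pos rfl, beq_iff_eq]; omega
      rw [h1, h2, ih]

theorem prefix_full {a i : ℕ} {p : List Bool} (hi : i < 2 ^ a) (hp : p.length = a) :
    p <+: bitsOf a i ↔ i = valB p := by
  constructor
  · intro h
    have h1 : p = bitsOf a i := h.eq_of_length (by rw [hp, length_bitsOf])
    have h2 := bitsOf_valB p
    rw [hp] at h2
    apply bitsOf_inj hi _ (h1.symm.trans h2.symm)
    have := valB_lt p
    rwa [hp] at this
  · rintro rfl
    have h2 := bitsOf_valB p
    rw [hp] at h2
    rw [h2]

theorem prefix_split {a i : ℕ} {p : List Bool} (hp : p.length < a) :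
    p <+: bitsOf a i ↔ (p ++ [false] <+: bitsOf a i) ∨ (p ++ [true] <+: bitsOf a i) := by
  constructor
  · rintro ⟨s, hs⟩
    have h1 : s ≠ [] := by
      rintro rfl
      rw [List.append_nil] at hs
      rw [hs, length_bitsOf] at hp
      omega
    obtain ⟨b, s', rfl⟩ := List.exists_cons_of_ne_nil h1
    cases b with
    | false => exact Or.inl ⟨s', by rw [← hs]; simp⟩
    | true => exact Or.inr ⟨s', by rw [← hs]; simp⟩
  · rintro (⟨s, hs⟩ | ⟨s, hs⟩)
    · exact ⟨false :: s, by rw [← hs]; simp⟩
    · exact ⟨true :: s, by rw [← hs]; simp⟩

theorem prefix_excl {l p : List Bool} (h1 : p ++ [false] <+: l) (h2 : p ++ [true] <+: l) :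
    False := by
  have h3 := List.prefix_of_prefix_length_le h1 h2 (by simp)
  have h4 := h3.eq_of_length (by simp)
  have h5 := List.append_cancel_left h4
  simp at h5

end Pool.Agent.W911.GP
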