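import Pool.Agent.W911.GP.Aut

/-!
# The sum of the weights over all the strings of one length
-/

set_option autoImplicit false

namespace Pool.Agent.W911.GP

open Finset Pool.Agent.NPC Pool.Agent.H620R2.Gauge Pool.Agent.H591R3.PHG

theorem Rv_succ (N : ℕ) (g : ℕ → ℤ) {f : ℕ} (hf : 1 ≤ f) (lo : ℕ) :
    Rv N g f lo = 1 + ∑ i ∈ Finset.Ico lo N, (- g i) * Rv N g (f - 1) (i + 1) := by
  obtain ⟨f', rfl⟩ : ∃ f', f = f' + 1 := ⟨f - 1, by omega⟩
  rfl

theorem fv_nil (t : ℕ) (v : List Bool → Bool) (a : ℕ) (r : List ℕ) (q : List Bool) (lo f : ℕ) :
    fv t v (a :: r, q, lo, f, []) = Rv (2 ^ a) (fun i => Gv t v r (q ++ bitsOf a i)) f lo := by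
  rw [fv, if_pos rfl]

theorem fv_cons (t : ℕ) (v : List Bool → Bool) (a : ℕ) (r : List ℕ) (q : List Bool) (lo f : ℕ)
    {p : List Bool} (hp : p ≠ []) :
    fv t v (a :: r, q, lo, f, p) =
      ∑ i ∈ (Finset.Ico lo (2 ^ a)).filter (fun i => p.tail <+: bitsOf a i),
      (- Gv t v r (q ++ bitsOf a i)) *
        Rv (2 ^ a) (fun i => Gv t v r (q ++ bitsOf a i)) (f - 1) (i + 1) := by
  rw [fv, if_neg hp]

/-- the value of a frame with the bits `p`, before it is known whether they are a full number -/
def pv (t : ℕ) (v : List Bool → Bool) (a : ℕ) (r : List ℕ) (q : List Bool) (lo f : ℕ)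
    (p : List Bool) : ℤ :=
  ∑ i ∈ (Finset.Ico lo (2 ^ a)).filter (fun i => p.tail <+: bitsOf a i),
      (- Gv t v r (q ++ bitsOf a i)) *
        Rv (2 ^ a) (fun i => Gv t v r (q ++ bitsOf a i)) (f - 1) (i + 1)

theorem pv_flag (t : ℕ) (v : List Bool → Bool) (a : ℕ) (r : List ℕ) (q : List Bool) (lo : ℕ)
    {f : ℕ} (hf : 1 ≤ f) :
    fv t v (a :: r, q, lo, f, []) = 1 + pv t v a r q lo f [true] := by
  rw [fv_nil, Rv_succ _ _ hf, pv]
  congr 1
  rw [Finset.filter_true_of_mem]
  intro i _
  exact List.nil_prefix

theorem pv_split (t : ℕ) (v : List Bool → Bool) (a : ℕ) (r : List ℕ) (q : List Bool) (lo f : ℕ)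
    {p : List Bool} (hp : p ≠ []) (hpa : p.length ≤ a) :
    fv t v (a :: r, q, lo, f, p) =
      pv t v a r q lo f (p ++ [false]) + pv t v a r q lo f (p ++ [true]) := by
  rw [fv_cons t v a r q lo f hp, pv, pv]
  have e1 : (p ++ [false]).tail = p.tail ++ [false] := List.tail_append_of_ne_nil hp
  have e2 : (p ++ [true]).tail = p.tail ++ [true] := List.tail_append_of_ne_nil hp
  have hl : p.tail.length < a := by
    rw [List.length_tail]
    have : 0 < p.length := List.length_pos_iff.2 hp
    omega
  rw [e1, e2, ← Finset.sum_union]
  · congr 1
    ext i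
    simp only [Finset.mem_union, Finset.mem_filter]
    rw [← and_or_left, prefix_split hl]
  · rw [Finset.disjoint_left]
    intro i h1 h2
    exact prefix_excl (Finset.mem_filter.1 h1).2 (Finset.mem_filter.1 h2).2

theorem pv_full (t : ℕ) (v : List Bool → Bool) (a : ℕ) (r : List ℕ) (q : List Bool) (lo f : ℕ)
    {p : List Bool} (hpa : p.length = a + 1) :
    pv t v a r q lo f p = if valB p.tail < lo then 0 else
      (- Gv t v r (q ++ p.tail)) *
        Rv (2 ^ a) (fun i => Gv t v r (q ++ bitsOf a i)) (f - 1) (valB p.tail + 1) := by
  have hl : p.tail.length = a := by rw [List.length_tail]; omega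
  have hlt : valB p.tail < 2 ^ a := by
    have := valB_lt p.tail
    rwa [hl] at this
  have hb : bitsOf a (valB p.tail) = p.tail := by
    have := bitsOf_valB p.tail
    rwa [hl] at this
  rw [pv]
  by_cases h : valB p.tail < lo
  · rw [if_pos h, Finset.sum_eq_zero]
    intro i hi
    rw [Finset.mem_filter, Finset.mem_Ico] at hi
    have h1 := (prefix_full hi.1.2 hl).1 hi.2
    omega
  · rw [if_neg h]
    rw [Finset.sum_eq_single (valB p.tail)]
    · rw [hb]
    · intro i hi hne
      rw [Finset.mem_filter, Finset.mem_Ico] at hi
      exact absurd ((prefix_full hi.1.2 hl).1 hi.2) hne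
    · intro hcon
      exfalso
      apply hcon
      rw [Finset.mem_filter, Finset.mem_Ico]
      exact ⟨⟨by omega, hlt⟩, (prefix_full hlt hl).2 rfl⟩

theorem SV_mk (t : ℕ) (v : List Bool → Bool) (s : Bool) (st : List Fr) (lv : List (List Bool)) :
    SV t v (true, s, st, lv) = (if s then -1 else 1) * (if lv.all v = true then 1 else 0) *
      (st.map (fv t v)).prod := rfl

theorem SV_dead (t : ℕ) (v : List Bool → Bool) {σ : St} (h : σ.1 = false) : SV t v σ = 0 := by
  unfold SV
  rw [h]
  rfl

theorem sgn_not (s : Bool) : (if (!s) = true then (-1 : ℤ) else 1) =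
    - (if s = true then -1 else 1) := by
  cases s <;> simp

theorem ind_all (v : List Bool → Bool) (x : List Bool) (l : List (List Bool)) :
    (if (x :: l).all v = true then (1 : ℤ) else 0) =
    (if v x = true then 1 else 0) * (if l.all v = true then 1 else 0) := by
  have h : (x :: l).all v = true ↔ v x = true ∧ l.all v = true := by
    rw [List.all_cons, Bool.and_eq_true]
  by_cases h1 : v x = true
  · by_cases h2 : l.all v = true
    · rw [if_pos (h.2 ⟨h1, h2⟩), if_pos h1, if_pos h2, one_mul]
    · rw [if_neg (fun h3 => h2 (h.1 h3).2), if_neg h2, mul_zero]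
  · rw [if_neg (fun h3 => h1 (h.1 h3).1), if_neg h1, zero_mul]

/-- the value after the bits `p` (not a single `false`) of a frame -/
theorem SV_read (t : ℕ) (v : List Bool → Bool) (s : Bool) (rest : List Fr)
    (lv : List (List Bool)) (a : ℕ) (r : List ℕ) (q : List Bool) (lo f : ℕ) (p : List Bool)
    (b : Bool) (h1 : ¬ (p = [] ∧ b = false)) (hf : f ≠ 0) (hp : p.length ≤ a) :
    SV t v (fstep t (true, s, (a :: r, q, lo, f, p) :: rest, lv) b) =
      (if s then -1 else 1) * (if lv.all v = true then 1 else 0) *
        (pv t v a r q lo f (p ++ [b]) * (rest.map (fv t v)).prod) := by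
  unfold fstep
  simp only [h1, hf, if_false, List.headD_cons, List.tail_cons]
  by_cases h2 : (p ++ [b]).length = a + 1
  · rw [if_pos h2, pv_full t v a r q lo f h2]
    by_cases h3 : valB (p ++ [b]).tail < lo
    · rw [if_pos h3, if_pos h3]
      rw [SV_dead t v rfl]
      ring
    · rw [if_neg h3, if_neg h3]
      by_cases hr : r = []
      · subst hr
        simp only [if_true, List.nil_append, List.cons_append, SV_mk, List.map_cons,
          List.prod_cons, fv_nil]
        have e : Gv t v [] (q ++ (p ++ [b]).tail) =
            if v (q ++ (p ++ [b]).tail) = true then 1 else 0 := rfl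
        rw [ind_all, e, sgn_not]
        ring
      · obtain ⟨a', r', rfl⟩ := List.exists_cons_of_ne_nil hr
        simp only [hr, if_false, List.nil_append, List.cons_append, SV_mk, List.map_cons,
          List.prod_cons, fv_nil]
        have e : Gv t v (a' :: r') (q ++ (p ++ [b]).tail) =
            Rv (2 ^ a') (fun i => Gv t v r' (q ++ (p ++ [b]).tail ++ bitsOf a' i)) t 0 := rfl
        rw [e, sgn_not]
        ring
  · rw [if_neg h2]
    have hne : p ++ [b] ≠ [] := by simp
    rw [SV_mk, List.map_cons, List.prod_cons, fv_cons t v a r q lo f hne]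
    rfl

theorem SV_step (t : ℕ) (v : List Bool → Bool) (σ : St) (h1 : σ.1 = true)
    (hok : ∀ fr ∈ σ.2.2.1, FOK fr) :
    SV t v σ = SV t v (fstep t σ false) + SV t v (fstep t σ true) := by
  obtain ⟨al, s, st, lv⟩ := σ
  simp only at h1
  subst h1
  cases st with
  | nil =>
    have e1 : fstep t (true, s, [], lv) false = (true, s, [], lv) := rfl
    have e2 : fstep t (true, s, [], lv) true = (false, s, [], lv) := rfl
    rw [e1, e2, SV_dead t v (σ := (false, s, [], lv)) rfl, add_zero]
  | cons fr rest =>
    obtain ⟨rr, q, lo, f, p⟩ := fr
    have hfr := hok _ (List.mem_cons_self ..)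
    cases rr with
    | nil => exact absurd hfr (by simp [FOK])
    | cons a r =>
      obtain ⟨hp, hpf⟩ : p.length ≤ a ∧ (p ≠ [] → 1 ≤ f) := hfr
      by_cases hp0 : p = []
      · subst hp0
        have e1 : fstep t (true, s, (a :: r, q, lo, f, []) :: rest, lv) false =
            (true, s, rest, lv) := rfl
        rw [e1]
        by_cases hf : f = 0
        · subst hf
          have e2 : fstep t (true, s, (a :: r, q, lo, 0, []) :: rest, lv) true =
            (false, s, (a :: r, q, lo, 0, []) :: rest, lv) := by
            unfold fstep
            simp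
          rw [e2, SV_dead t v (σ := (false, _)) rfl, add_zero, SV_mk, SV_mk, List.map_cons,
            List.prod_cons, fv_nil]
          simp [Rv]
        · rw [SV_read t v s rest lv a r q lo f [] true (by simp) hf hp, SV_mk, SV_mk,
            List.map_cons, List.prod_cons, pv_flag t v a r q lo (by omega)]
          rw [List.nil_append]
          ring
      · have hf : f ≠ 0 := by have := hpf hp0; omega
        rw [SV_read t v s rest lv a r q lo f p false (by simp [hp0]) hf hp,
          SV_read t v s rest lv a r q lo f p true (by simp [hp0]) hf hp, SV_mk,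
            List.map_cons, List.prod_cons, pv_split t v a r q lo f hp0 hp]
        ring

theorem fneed_pos (t : ℕ) {fr : Fr} (h : FOK fr) : 1 ≤ fneed t fr := by
  obtain ⟨rr, q, lo, f, p⟩ := fr
  cases rr with
  | nil => exact absurd h (by simp [FOK])
  | cons a r =>
    obtain ⟨hp, hpf⟩ : p.length ≤ a ∧ (p ≠ [] → 1 ≤ f) := h
    show 1 ≤ f * (1 + a + nd t r) + 1 - p.length
    by_cases hp0 : p = []
    · subst hp0
      simp
    · have hf := hpf hp0
      have h2 : 1 * (1 + a + nd t r) ≤ f * (1 + a + nd t r) := Nat.mul_le_mul_right _ hf
      omega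

theorem need_step (t : ℕ) (σ : St) (b : Bool) (hok : ∀ fr ∈ σ.2.2.1, FOK fr)
    (h : (fstep t σ b).1 = true) :
    need t (fstep t σ b) ≤ need t σ - 1 ∧ ∀ fr ∈ (fstep t σ b).2.2.1, FOK fr := by
  obtain ⟨al, s, st, lv⟩ := σ
  cases st with
  | nil =>
    have e1 : (fstep t (al, s, [], lv) b).2.2.1 = [] := rfl
    unfold need
    rw [e1]
    exact ⟨Nat.zero_le _, by simp⟩
  | cons fr rest =>
    have hfr := hok _ (List.mem_cons_self ..)
    have hrest : ∀ fr ∈ rest, FOK fr := fun fr' h' => hok fr' (List.mem_cons_of_mem _ h')
    have hpos := fneed_pos t hfr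
    obtain ⟨rr, q, lo, f, p⟩ := fr
    cases rr with
    | nil => exact absurd hfr (by simp [FOK])
    | cons a r =>
      obtain ⟨hp, hpf⟩ : p.length ≤ a ∧ (p ≠ [] → 1 ≤ f) := hfr
      have hneed : need t (al, s, (a :: r, q, lo, f, p) :: rest, lv) =
          fneed t (a :: r, q, lo, f, p) + (rest.map (fneed t)).sum := by
        unfold need
        rw [List.map_cons, List.sum_cons]
      rw [hneed]
      unfold fstep at h ⊢
      simp only [List.headD_cons, List.tail_cons] at h ⊢
      by_cases h1 : p = [] ∧ b = false
      · rw [if_pos h1]
        refine ⟨?_, hrest⟩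
        unfold need
        simp only
        omega
      · rw [if_neg h1] at h ⊢
        by_cases h2 : f = 0
        · rw [if_pos h2] at h
          simp at h
        · rw [if_neg h2] at h ⊢
          have hfn : fneed t (a :: r, q, lo, f, p) = f * (1 + a + nd t r) + 1 - p.length := rfl
          have hf1 : f * (1 + a + nd t r) = (f - 1) * (1 + a + nd t r) + (1 + a + nd t r) := by
            obtain ⟨f', rfl⟩ : ∃ f', f = f' + 1 := ⟨f - 1, by omega⟩
            rw [Nat.add_sub_cancel]
            ring
          by_cases h3 : (p ++ [b]).length = a + 1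
          · rw [if_pos h3] at h ⊢
            have h3' : p.length = a := by simpa using h3
            by_cases h4 : valB (p ++ [b]).tail < lo
            · rw [if_pos h4] at h
              simp at h
            · rw [if_neg h4] at h ⊢
              have hfn2 : fneed t (a :: r, q, valB (p ++ [b]).tail + 1, f - 1, []) =
                (f - 1) * (1 + a + nd t r) + 1 := rfl
              have hok2 : FOK (a :: r, q, valB (p ++ [b]).tail + 1, f - 1, []) :=
                ⟨Nat.zero_le _, fun h => absurd rfl h⟩
              by_cases hr : r = []
              · subst hr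
                simp only [if_true, List.nil_append]
                constructor
                · unfold need
                  simp only [List.map_cons, List.sum_cons]
                  rw [hfn2, hfn, h3']
                  have : nd t [] = 0 := rfl
                  rw [this] at hf1 ⊢
                  omega
                · intro fr hfr'
                  rcases List.mem_cons.1 hfr' with rfl | h5
                  · exact hok2
                  · exact hrest fr h5
              · simp only [hr, if_false, List.cons_append, List.nil_append]
                obtain ⟨a', r', rfl⟩ := List.exists_cons_of_ne_nil hr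
                have hfn3 : fneed t (a' :: r', q ++ (p ++ [b]).tail, 0, t, []) =
                  nd t (a' :: r') := rfl
                constructor
                · unfold need
                  simp only [List.map_cons, List.sum_cons]
                  rw [hfn2, hfn3, hfn, h3']
                  omega
                · intro fr hfr'
                  rcases List.mem_cons.1 hfr' with rfl | h5
                  · exact ⟨Nat.zero_le _, fun h => absurd rfl h⟩
                  · rcases List.mem_cons.1 h5 with rfl | h6
                    · exact hok2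
                    · exact hrest fr h6
          · rw [if_neg h3] at h ⊢
            have h3' : p.length < a := by
              have : (p ++ [b]).length = p.length + 1 := by simp
              omega
            constructor
            · unfold need
              simp only [List.map_cons, List.sum_cons]
              have : fneed t (a :: r, q, lo, f, p ++ [b]) =
                f * (1 + a + nd t r) + 1 - (p ++ [b]).length := rfl
              rw [this, hfn]
              have h5 : (p ++ [b]).length = p.length + 1 := by simp
              omega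
            · intro fr hfr'
              rcases List.mem_cons.1 hfr' with rfl | h5
              · refine ⟨?_, fun _ => by omega⟩
                have h5 : (p ++ [b]).length = p.length + 1 := by simp
                omega
              · exact hrest fr h5

theorem tot_run (t : ℕ) (v : List Bool → Bool) : ∀ (L : ℕ) (σ : St),
    (∀ fr ∈ σ.2.2.1, FOK fr) → need t σ ≤ L →
    tot L (fun w => wgt v (w.foldl (fstep t) σ)) = SV t v σ := by
  intro L
  induction L with
  | zero =>
    intro σ hok hn
    show wgt v σ = SV t v σ
    have h0 : σ.2.2.1 = [] := by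
      by_contra hne
      obtain ⟨fr, rest, he⟩ := List.exists_cons_of_ne_nil hne
      have h1 := fneed_pos t (hok fr (by rw [he]; exact List.mem_cons_self ..))
      unfold need at hn
      rw [he, List.map_cons, List.sum_cons] at hn
      omega
    obtain ⟨al, s, st, lv⟩ := σ
    simp only at h0
    subst h0
    unfold wgt SV
    cases al <;> cases s <;> cases h : lv.all v <;> simp_all
  | succ L ih =>
    intro σ hok hn
    by_cases hal : σ.1 = true
    · have key : ∀ b : Bool, tot L (fun w => wgt v (w.foldl (fstep t) (fstep t σ b))) =
          SV t v (fstep t σ b) := by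
        intro b
        by_cases hb : (fstep t σ b).1 = true
        · obtain ⟨h1, h2⟩ := need_step t σ b hok hb
          exact ih _ h2 (by omega)
        · have hb' : (fstep t σ b).1 = false := by simpa using hb
          rw [dead_tot t v L _ hb', SV_dead t v hb']
      rw [tot]
      simp only [List.foldl_cons]
      rw [key false, key true]
      exact (SV_step t v σ hal hok).symm
    · have hal' : σ.1 = false := by simpa using hal
      rw [dead_tot t v _ _ hal', SV_dead t v hal']

/-- the sum of all the weights for one tree -/
theorem tot_tree (t : ℕ) (v : List Bool → Bool) (r : List ℕ) (hr : r ≠ []) (q : List Bool)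
    (L : ℕ) (hL : nd t r ≤ L) :
    tot L (fun w => wgt v (w.foldl (fstep t) (true, false, [(r, q, 0, t, [])], []))) =
      Gv t v r q := by
  obtain ⟨a, r', rfl⟩ := List.exists_cons_of_ne_nil hr
  rw [tot_run t v L _ ?_ ?_]
  · rw [SV_mk]
    simp [fv_nil, Gv]
  · intro fr hfr
    rw [List.mem_singleton] at hfr
    subst hfr
    exact ⟨Nat.zero_le _, fun h => absurd rfl h⟩
  · show ([(a :: r', q, 0, t, [])].map (fneed t)).sum ≤ L
    rw [List.map_singleton, List.sum_singleton]
    exact hL

end Pool.Agent.W911.GP
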