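import Pool.Agent.W911.AL.Main
import Pool.Agent.W911.GP.Aut

/-!
# The lower bound for inputs of length `n` which depend on a prefix of length `(log n) ^ 2`
-/

set_option autoImplicit false

namespace Pool.Agent.W911.GP

open Finset MeasureTheory Filter Topology Pool.Agent.NPC H568R2 Pool.Agent.H676
open Pool.Agent.H620R2.Gauge Pool.Agent.H591R3.PHG Pool.Agent.H622R2
open Pool.Agent.W911.IB (Ew bt law_local)
open Pool.Agent.W911.AL

/-- The oracles for which some advice of length at most `P'` is right for all the inputs of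
length `ℓ`, for `κ` alternating quantifiers over the strings of length `m`. -/
def Bad2 (M : Alg) (ℓ κ m P' : ℕ) : Set Oracle :=
  {A | ∃ h : List Bool, h.length ≤ P' ∧ ∀ x : List Bool, x.length = ℓ →
    (HV κ A x = false ↔ Alt m
      (fun u => M.out A (pairBits (pairBits x h) u) = some [true]) κ true [])}

theorem evz_of_bad2 {M : Alg} {m P' : ℕ} {qb : Polynomial ℕ}
    (hqb : ∀ (A : Oracle) (x : List Bool), ∃ Q : Finset (List Bool),
      Q.card ≤ M.p.eval x.length ∧ (∀ q ∈ Q, q.length ≤ qb.eval x.length) ∧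
      ∀ A' : Oracle, (∀ q ∈ Q, A' q = A q) → M.out A' x = M.out A x)
    {A : Oracle} {ℓ κ N K : ℕ} (hA : A ∈ Bad2 M ℓ κ m P')
    (xs : Fin K → List Bool) (hxl : ∀ j, (xs j).length = ℓ)
    (hpos : ∀ g : Idx (Fin K) (8 * ℓ :: pw (Sz ℓ κ)),
      idx (addr xs (Sz ℓ κ) g.1 ++ List.replicate g.2.val true) < N)
    {T : ℕ} (hT : 2 * ℓ + 1 + P' + κ * (2 * m + 1) ≤ T)
    (hN : 2 ^ (qb.eval (2 * T + 1 + κ * m) + 1) ≤ N) :
    EvZ M xs (Sz ℓ κ) ℓ N κ (m) (P') hpos (pre N A) := by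
  obtain ⟨h, hh, hx⟩ := hA
  have hV : ∀ y : List Bool, y.length ≤ 2 * T + 1 + κ * m →
      (M.out A y = some [true] ↔ leaf M N y (pre N A) = true) := by
    intro y hy
    obtain ⟨Q, _, hQl, hQA⟩ := hqb A y
    have h1 : M.out (orc N (pre N A)) y = M.out A y := by
      apply hQA
      intro q hq
      apply orc_pre
      have h2 := idx_lt q
      have h3 : q.length ≤ qb.eval (2 * T + 1 + κ * m) :=
        (hQl q hq).trans (eval_mono _ hy)
      have h4 : 2 ^ (q.length + 1) ≤ 2 ^ (qb.eval (2 * T + 1 + κ * m) + 1) :=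
        Nat.pow_le_pow_right (by norm_num) (by omega)
      omega
    unfold leaf
    rw [h1, decide_eq_true_eq]
  refine ⟨h.length, hh, h, rfl, fun j => ?_⟩
  have h1 := hx (xs j) (hxl j)
  have h2 : HV κ A (xs j) =
      Tr (8 * ℓ :: pw (Sz ℓ κ)) (fun g => pre N A (posz xs (Sz ℓ κ) ℓ N hpos g)) j := by
    unfold HV
    rw [hxl j, ← tr_leaves A (Sz ℓ κ) (8 * ℓ) xs j]
    have e : leaves xs (Sz ℓ κ) (8 * ℓ) A =
        fun g => pre N A (posz xs (Sz ℓ κ) ℓ N hpos g) := by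
      funext g
      show A (addr xs (Sz ℓ κ) g.1 ++ List.replicate g.2.val true) =
        A (str (idx (addr xs (Sz ℓ κ) g.1 ++ List.replicate g.2.val true)))
      rw [str_idx]
    rw [e]
  have h3 := qf_alt (m) κ (leaf M N) (pre N A)
    (pairBits (xs j) h) κ 0 true (pairBits (xs j) h) [] (by omega) rfl
  have h4 : Alt (m) (fun v => M.out A
      (pairBits (pairBits (xs j) h) v) = some [true]) κ true [] ↔
      Alt (m) (fun v => leaf M N
        (pairBits (pairBits (xs j) h) v) (pre N A) = true) κ true [] := by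
    apply Alt_congr
    intro v hv
    apply hV
    rw [length_pairBits, length_pairBits, hxl, hv, List.length_nil, zero_add]
    omega
  have h5 : QF (m) (GG (m) κ (leaf M N)) κ true
      (pairBits (xs j) h) (pre N A) = true ↔
      Tr (8 * ℓ :: pw (Sz ℓ κ)) (fun g => pre N A (posz xs (Sz ℓ κ) ℓ N hpos g)) j =
        false := by
    rw [h3, ← h4, ← h1, h2]
  intro heq
  rw [heq] at h5
  cases hb : Tr (8 * ℓ :: pw (Sz ℓ κ)) (fun g => pre N A (posz xs (Sz ℓ κ) ℓ N hpos g)) j with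
  | true => rw [hb] at h5; exact absurd (h5.1 rfl) (by simp)
  | false => rw [hb] at h5; exact absurd (h5.2 rfl) (by simp)

theorem law_bad2 (M : Alg) {ℓ κ u T m P' : ℕ} (hn : 13 ≤ ℓ) (hu : 8 * u ≤ ℓ)
    (hT : 2 * ℓ + 1 + P' + κ * (2 * m + 1) ≤ T)
    (hP : M.p.eval (2 * T + 1 + κ * m) ≤ 2 ^ (2 * u)) :
    fair (Bad2 M ℓ κ m P') ≤ ENNReal.ofReal (2 ^ (2 * P') *
      (κ * (2 ^ (T + 2) * (1 / 2) ^ (2 ^ (2 * u) + 1)) + 3 * (1 / 2) ^ (2 ^ u))) := by
  classical
  have hn5 : 5 ≤ ℓ := by omega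
  have hlaw := Sz_spec hn5 κ (Fin (2 ^ (u + 11))) (2 ^ (3 * u + 11)) (2 ^ (u + 9)) (by
      calc 16 * 2 ^ (3 * u + 11) = 2 ^ (3 * u + 15) := by
            rw [show 3 * u + 15 = 3 * u + 11 + 4 from rfl, pow_add _ (3 * u + 11) 4]; ring
        _ ≤ 2 ^ (4 * ℓ) := Nat.pow_le_pow_right (by norm_num) (by omega)) (by
      rw [Fintype.card_fin]
      have : 2 ^ (u + 11) = 4 * 2 ^ (u + 9) := by
        rw [show u + 11 = u + 9 + 2 from rfl, pow_add _ (u + 9) 2]; ring
      omega)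
  rw [Fintype.card_fin] at hlaw
  set xs : Fin (2 ^ (u + 11)) → List Bool := fun j => bitsOf ℓ j.val with hxs
  have hxl : ∀ j, (xs j).length = ℓ := fun j => length_bitsOf ℓ j.val
  have hK : 2 ^ (u + 11) ≤ 2 ^ ℓ := Nat.pow_le_pow_right (by norm_num) (by omega)
  have hxi : Function.Injective xs := by
    intro j j' h
    exact Fin.ext (bitsOf_inj (lt_of_lt_of_le j.2 hK) (lt_of_lt_of_le j'.2 hK) h)
  obtain ⟨qb, hqb⟩ := Alg.out_local M
  set N : ℕ := 2 ^ (ℓ + (Sz ℓ κ).sum + 8 * ℓ + qb.eval (2 * T + 1 + κ * m) + 1) with hN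
  have hpos : ∀ g : Idx (Fin (2 ^ (u + 11))) (8 * ℓ :: pw (Sz ℓ κ)),
      idx (addr xs (Sz ℓ κ) g.1 ++ List.replicate g.2.val true) < N := by
    intro g
    have h1 := leaf_len xs ℓ hxl (Sz ℓ κ) (8 * ℓ) g
    have h2 := idx_lt (addr xs (Sz ℓ κ) g.1 ++ List.replicate g.2.val true)
    have h3 : 2 ^ ((addr xs (Sz ℓ κ) g.1 ++
        List.replicate g.2.val true).length + 1) ≤ N :=
      Nat.pow_le_pow_right (by norm_num) (by omega)
    omega
  have hN2 : 2 ^ (qb.eval (2 * T + 1 + κ * m) + 1) ≤ N :=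
    Nat.pow_le_pow_right (by norm_num) (by omega)
  have h1 : Bad2 M ℓ κ m P' ⊆
      {A | EvZ M xs (Sz ℓ κ) ℓ N κ (m) (P') hpos (pre N A)} :=
    fun A hA => evz_of_bad2 hqb hA xs hxl hpos hT hN2
  refine (measure_mono h1).trans ?_
  unfold fair
  rw [law_local, Ew_fair]
  apply ENNReal.ofReal_le_ofReal
  exact evz_bound M hn5 hu rfl xs hxi hxl (Sz_length ℓ κ) hlaw hpos hT hP


theorem num_bound {P' T κ u P n : ℕ} (h1 : 2 * P' + κ + T + 2 ≤ P) (h3 : n + 1 ≤ P)
    (h2 : 3 * P ≤ 2 ^ u) :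
    (2 : ℝ) ^ (2 * P') * (κ * (2 ^ (T + 2) * (1 / 2) ^ (2 ^ (2 * u) + 1)) +
      3 * (1 / 2) ^ (2 ^ u)) ≤ (1 / 2) ^ n := by
  have hu2 : 2 ^ u ≤ 2 ^ (2 * u) := Nat.pow_le_pow_right (by norm_num) (by omega)
  have hκ2 : (κ : ℝ) ≤ 2 ^ κ := by
    have : κ ≤ 2 ^ κ := Nat.lt_two_pow_self.le
    exact_mod_cast this
  have hhalf : ∀ a b : ℕ, a ≤ b → ((1 : ℝ) / 2) ^ b ≤ (1 / 2) ^ a := fun a b hab =>
    pow_le_pow_of_le_one (by norm_num) (by norm_num) hab
  have hcancel : ∀ a b : ℕ, (2 : ℝ) ^ a * (1 / 2) ^ (a + b) = (1 / 2) ^ b := by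
    intro a b
    rw [pow_add, ← mul_assoc, ← mul_pow]
    norm_num
  have g1 : (2 : ℝ) ^ (2 * P') * (κ * (2 ^ (T + 2) * (1 / 2) ^ (2 ^ (2 * u) + 1))) ≤
      (1 / 2) ^ (2 * P) := by
    calc (2 : ℝ) ^ (2 * P') * (κ * (2 ^ (T + 2) * (1 / 2) ^ (2 ^ (2 * u) + 1)))
        ≤ 2 ^ (2 * P') * (2 ^ κ * (2 ^ (T + 2) * (1 / 2) ^ (P + 2 * P))) := by
          apply mul_le_mul_of_nonneg_left _ (by positivity)
          apply mul_le_mul hκ2 _ (by positivity) (by positivity)
          apply mul_le_mul_of_nonneg_left _ (by positivity)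
          exact hhalf _ _ (by omega)
      _ = 2 ^ (2 * P' + κ + (T + 2)) * (1 / 2) ^ (P + 2 * P) := by
          rw [pow_add, pow_add]; ring
      _ ≤ 2 ^ P * (1 / 2) ^ (P + 2 * P) := by
          apply mul_le_mul_of_nonneg_right _ (by positivity)
          exact pow_le_pow_right₀ (by norm_num) (by omega)
      _ = (1 / 2) ^ (2 * P) := hcancel _ _
  have g2 : (2 : ℝ) ^ (2 * P') * (3 * (1 / 2) ^ (2 ^ u)) ≤ (1 / 2) ^ (2 * P) := by
    calc (2 : ℝ) ^ (2 * P') * (3 * (1 / 2) ^ (2 ^ u))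
        ≤ 2 ^ (2 * P') * (2 ^ 2 * (1 / 2) ^ (P + 2 * P)) := by
          apply mul_le_mul_of_nonneg_left _ (by positivity)
          apply mul_le_mul (by norm_num) (hhalf _ _ (by omega)) (by positivity) (by positivity)
      _ = 2 ^ (2 * P' + 2) * (1 / 2) ^ (P + 2 * P) := by
          rw [pow_add]; ring
      _ ≤ 2 ^ P * (1 / 2) ^ (P + 2 * P) := by
          apply mul_le_mul_of_nonneg_right _ (by positivity)
          exact pow_le_pow_right₀ (by norm_num) (by omega)
      _ = (1 / 2) ^ (2 * P) := hcancel _ _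
  have g3 : ((1 : ℝ) / 2) ^ (2 * P) ≤ (1 / 2) ^ (n + 1) := hhalf _ _ (by omega)
  have g4 : ((1 : ℝ) / 2) ^ (n + 1) = (1 / 2) ^ n / 2 := by
    rw [pow_succ]; ring
  rw [mul_add]
  linarith

/-- The length of the prefix. -/
def ell (n : ℕ) : ℕ := Nat.size n ^ 2

/-- The number of alternations. -/
def kap (c n : ℕ) : ℕ := c * Nat.size n / Nat.size (Nat.size n)

theorem size_le (n : ℕ) : Nat.size n ≤ n := Nat.size_le.2 Nat.lt_two_pow_self

theorem kap_le (c n : ℕ) : kap c n ≤ c * n :=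
  (Nat.div_le_self _ _).trans (Nat.mul_le_mul_left _ (size_le n))

theorem ell_le (n : ℕ) : ell n ≤ n ^ 2 := Nat.pow_le_pow_left (size_le n) 2

theorem size_tendsto : Tendsto Nat.size atTop atTop := by
  rw [tendsto_atTop]
  intro b
  filter_upwards [eventually_ge_atTop (2 ^ b)] with n hn
  exact (Nat.lt_size.2 hn).le

theorem poly_le_ell (Q : Polynomial ℕ) : ∀ᶠ n : ℕ in atTop, Q.eval n ≤ 2 ^ (ell n / 8) := by
  obtain ⟨d, hd⟩ := poly_le_pow Q
  filter_upwards [hd, size_tendsto.eventually (eventually_ge_atTop (8 * d + 8))] with n h1 h2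
  refine h1.trans ?_
  have h3 : n ^ d ≤ (2 ^ Nat.size n) ^ d := Nat.pow_le_pow_left (Nat.lt_size_self n).le d
  refine h3.trans ?_
  rw [← pow_mul]
  apply Nat.pow_le_pow_right (by norm_num)
  rw [Nat.le_div_iff_mul_le (by norm_num)]
  unfold ell
  calc Nat.size n * d * 8 = Nat.size n * (8 * d) := by ring
    _ ≤ Nat.size n * Nat.size n := Nat.mul_le_mul_left _ (by omega)
    _ = Nat.size n ^ 2 := (sq _).symm

/-- the bound for the lengths of the strings -/
noncomputable def TT2 (θ : Th) (c : ℕ) : Polynomial ℕ :=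
  2 * Polynomial.X ^ 2 + 1 + θ.p' + Polynomial.C c * Polynomial.X * (2 * θ.p + 1)

theorem eval_TT2 (θ : Th) (c n : ℕ) :
    (TT2 θ c).eval n = 2 * n ^ 2 + 1 + θ.p'.eval n + c * n * (2 * θ.p.eval n + 1) := by
  simp [TT2]

/-- the polynomial for the final bound -/
noncomputable def PP2 (θ : Th) (c : ℕ) : Polynomial ℕ :=
  2 * θ.p' + TT2 θ c +
    θ.M.p.comp (2 * TT2 θ c + 1 + Polynomial.C c * Polynomial.X * θ.p) +
    Polynomial.C c * Polynomial.X + Polynomial.X + 3

theorem eval_PP2 (θ : Th) (c n : ℕ) : (PP2 θ c).eval n =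
    2 * θ.p'.eval n + (TT2 θ c).eval n +
    θ.M.p.eval (2 * (TT2 θ c).eval n + 1 + c * n * θ.p.eval n) + c * n + n + 3 := by
  simp [PP2, Polynomial.eval_comp]

theorem law_bad2_adm (θ : Th) (c : ℕ) {n : ℕ} (hn : 13 ≤ ell n)
    (hP : 3 * (PP2 θ c).eval n ≤ 2 ^ (ell n / 8)) :
    fair (Bad2 θ.M (ell n) (kap c n) (θ.p.eval n) (θ.p'.eval n)) ≤
      ENNReal.ofReal ((1 / 2) ^ n) := by
  have hPQ := eval_PP2 θ c n
  have hTT := eval_TT2 θ c n
  have hκ := kap_le c n
  have hℓ := ell_le n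
  set P : ℕ := (PP2 θ c).eval n with hPdef
  set T : ℕ := (TT2 θ c).eval n with hTdef
  set u : ℕ := ell n / 8 with hu
  have hT : 2 * ell n + 1 + θ.p'.eval n + kap c n * (2 * θ.p.eval n + 1) ≤ T := by
    rw [hTT]
    have : kap c n * (2 * θ.p.eval n + 1) ≤ c * n * (2 * θ.p.eval n + 1) :=
      Nat.mul_le_mul_right _ hκ
    omega
  have hu2 : 2 ^ u ≤ 2 ^ (2 * u) := Nat.pow_le_pow_right (by norm_num) (by omega)
  have hM : θ.M.p.eval (2 * T + 1 + kap c n * θ.p.eval n) ≤ 2 ^ (2 * u) := by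
    have h1 : kap c n * θ.p.eval n ≤ c * n * θ.p.eval n := Nat.mul_le_mul_right _ hκ
    have h2 : θ.M.p.eval (2 * T + 1 + kap c n * θ.p.eval n) ≤
        θ.M.p.eval (2 * T + 1 + c * n * θ.p.eval n) := eval_mono _ (by omega)
    omega
  refine (law_bad2 θ.M hn (by rw [hu]; omega) hT hM).trans (ENNReal.ofReal_le_ofReal ?_)
  exact num_bound (P := P) (by omega) (by omega) hP

theorem ae_good2 : ∀ᵐ A ∂fair, ∀ (θ : Th) (c : ℕ), ∀ᶠ n : ℕ in atTop,
    A ∉ Bad2 θ.M (ell n) (kap c n) (θ.p.eval n) (θ.p'.eval n) := by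
  rw [ae_all_iff]
  intro θ
  rw [ae_all_iff]
  intro c
  classical
  set s : ℕ → Set Oracle := fun n =>
    if 13 ≤ ell n ∧ 3 * (PP2 θ c).eval n ≤ 2 ^ (ell n / 8) then
      Bad2 θ.M (ell n) (kap c n) (θ.p.eval n) (θ.p'.eval n) else ∅ with hs
  have hμ : ∀ n, fair (s n) ≤ ENNReal.ofReal ((1 / 2) ^ n) := by
    intro n
    by_cases hc : 13 ≤ ell n ∧ 3 * (PP2 θ c).eval n ≤ 2 ^ (ell n / 8)
    · have e : s n = Bad2 θ.M (ell n) (kap c n) (θ.p.eval n) (θ.p'.eval n) := if_pos hc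
      rw [e]
      exact law_bad2_adm θ c hc.1 hc.2
    · have e : s n = ∅ := if_neg hc
      rw [e, measure_empty]
      exact zero_le
  have hsum : ∑' n, fair (s n) ≠ ⊤ := by
    refine ne_top_of_le_ne_top ?_ (ENNReal.tsum_le_tsum hμ)
    rw [← ENNReal.ofReal_tsum_of_nonneg (fun n => by positivity) summable_geometric_two]
    exact ENNReal.ofReal_ne_top
  have hev : ∀ᶠ n : ℕ in atTop, 13 ≤ ell n ∧ 3 * (PP2 θ c).eval n ≤ 2 ^ (ell n / 8) := by
    filter_upwards [poly_le_ell (3 * PP2 θ c),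
      size_tendsto.eventually (eventually_ge_atTop 4)] with n h2 h3
    refine ⟨?_, ?_⟩
    · unfold ell
      calc 13 ≤ 4 ^ 2 := by norm_num
        _ ≤ Nat.size n ^ 2 := Nat.pow_le_pow_left h3 2
    · have : (3 * PP2 θ c).eval n = 3 * (PP2 θ c).eval n := by simp
      omega
  filter_upwards [ae_eventually_notMem hsum] with A hA
  filter_upwards [hA, hev] with n hn hc hbad
  apply hn
  have e : s n = Bad2 θ.M (ell n) (kap c n) (θ.p.eval n) (θ.p'.eval n) := if_pos hc
  rw [e]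
  exact hbad

variable {α : Type} [TEnc α]

theorem upoly_size {n : α → ℕ} (hn : UPoly n) : UPoly (fun a => Nat.size (n a)) :=
  UPoly.of_le (poly_size hn.toPoly) hn (fun a => size_le _)

theorem upoly_ell {n : α → ℕ} (hn : UPoly n) : UPoly (fun a => ell (n a)) :=
  (UPoly.mul (upoly_size hn) (upoly_size hn)).congr fun a => by
    show _ = List.replicate (ell (n a)) ()
    rw [ell, sq]

theorem upoly_kap (c : ℕ) {n : α → ℕ} (hn : UPoly n) : UPoly (fun a => kap c (n a)) := by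
  have h1 : UPoly (fun a => c * Nat.size (n a)) := UPoly.mul (UPoly.const c) (upoly_size hn)
  exact UPoly.of_le (Poly.div h1.toPoly (upoly_size (upoly_size hn)).toPoly) h1
    (fun a => Nat.div_le_self _ _)

theorem nice_kap (c : ℕ) : Nice (kap c) := by
  apply polyTime_of_poly_list
  have h1 : UPoly (fun x : List Bool => kap c x.length) := upoly_kap c (UPoly.length Poly.id)
  have h2 : Poly (fun x : List Bool => List.replicate (kap c x.length) ()) := h1
  exact (NPC.Poly.map (F := fun _ _ => true) h2 (NPC.Poly.const true)).congr fun x => by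
    rw [List.map_replicate]

/-- almost every oracle: the lower bound -/
theorem lower2 : ∀ᵐ A ∂fair, ∀ (c : ℕ) (k' : ℕ → ℕ) (L' : Set (List Bool)),
    IsSigmaPoly A k' L' → ∀ᶠ n : ℕ in atTop, k' n ≤ kap c n →
      ell n ≤ n → ∃ x₀ : List Bool, x₀.length = ell n ∧
        ¬ (HV (kap c n) A x₀ = false ↔ (x₀ ++ List.replicate (n - ell n) false) ∈ L') := by
  filter_upwards [ae_good2] with A hA
  intro c k' L' hL'
  obtain ⟨L'', hL2, heq⟩ := pad_poly (nice_kap c) hL'
  obtain ⟨V, p, p', h, hV, hh, hx⟩ := hL2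
  -- the advice is extended by the length in unary
  set h₂ : ℕ → List Bool := fun n => pairBits (h n) (List.replicate n true) with hh₂
  have i1 : Poly (fun y : List Bool => (unpair y).1) := Poly.fst poly_unpair
  have i2 : Poly (fun y : List Bool => (unpair y).2) := Poly.snd poly_unpair
  set V₂ : List Bool → List Bool := fun y => V (pairBits (pairBits
    ((unpair (unpair y).1).1 ++ List.replicate ((unpair (unpair (unpair y).1).2).2.length -
      (unpair (unpair y).1).1.length) false)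
    (unpair (unpair (unpair y).1).2).1) (unpair y).2) with hV₂
  have hV₂fp : IsFP A V₂ := by
    refine IsFP.precomp hV (poly_pairBits (poly_pairBits (Poly.append (i1.comp i1) ?_)
      (i1.comp (i2.comp i1))) i2)
    have h1 : UPoly (fun y : List Bool => (unpair (unpair (unpair y).1).2).2.length) :=
      UPoly.length (i2.comp (i2.comp i1))
    have h2 : UPoly (fun y : List Bool => (unpair (unpair (unpair y).1).2).2.length -
        (unpair (unpair y).1).1.length) :=
      UPoly.of_le (Poly.sub h1.toPoly (UPoly.length (i1.comp i1)).toPoly) h1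
        (fun y => Nat.sub_le _ _)
    have h3 : Poly (fun y : List Bool => List.replicate
      ((unpair (unpair (unpair y).1).2).2.length - (unpair (unpair y).1).1.length) ()) := h2
    exact (NPC.Poly.map (F := fun _ _ => false) h3 (NPC.Poly.const false)).congr fun y => by
      rw [List.map_replicate]
  obtain ⟨M, hM⟩ := hV₂fp
  filter_upwards [hA ⟨M, p, 2 * p' + 1 + Polynomial.X⟩ c] with n hn hk hℓ
  by_contra hcon
  push Not at hcon
  apply hn
  refine ⟨h₂ n, ?_, fun x₀ hx₀ => ?_⟩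
  · rw [hh₂]
    simp only
    rw [length_pairBits, List.length_replicate]
    have h1 := hh n
    have h2 : (2 * p' + 1 + Polynomial.X : Polynomial ℕ).eval n = 2 * p'.eval n + 1 + n := by
      simp
    rw [h2]
    omega
  · have h1 := hcon x₀ hx₀
    have hlen : (x₀ ++ List.replicate (n - ell n) false).length = n := by
      rw [List.length_append, List.length_replicate, hx₀]
      omega
    have h2 := heq (x₀ ++ List.replicate (n - ell n) false) (by rw [hlen]; exact hk)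
    have h3 := hx (x₀ ++ List.replicate (n - ell n) false)
    rw [hlen] at h3
    rw [h1, ← h2, h3]
    apply Alt_congr
    intro v _
    have h4 : V₂ (pairBits (pairBits x₀ (h₂ n)) v) =
        V (pairBits (pairBits (x₀ ++ List.replicate (n - ell n) false) (h n)) v) := by
      rw [hV₂, hh₂]
      simp only [unpair_pairBits, List.length_replicate, hx₀]
    rw [← h4, hM, Option.some.injEq]

end Pool.Agent.W911.GP
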