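import Pool.Agent.W911.GP.Aut
import Pool.Agent.W911.AL.Up

/-!
# The parts of the proof
-/

set_option autoImplicit false

namespace Pool.Agent.W911.GP

open Finset MeasureTheory Pool.Agent.NPC Pool.Agent.H622R2 Pool.Agent.H620R2.Gauge
open Pool.Agent.H591R3.PHG
open Pool.Agent.W911.AL (fair Sz)

/-- For a random oracle, the trees of NOR gates for the strings of length `ℓ` have no gate with
more than `t` true children, with high probability. -/
def S_PROB : Prop := ∀ ℓ κ t : ℕ, 5 ≤ ℓ →
  fair {A : Oracle | ∃ x : List Bool, x.length = ℓ ∧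
      ¬ Few t (bitv A (8 * ℓ)) (Sz ℓ κ).reverse x} ≤
    ENNReal.ofReal ((κ + 1) * 2 ^ (ℓ + 64 * ℓ * (κ + 1)) *
      ((33 * ℓ : ℝ) ^ (t + 1) / (t + 1).factorial))

/-- The automaton can be run in polynomial time. -/
def S_POLY : Prop := ∀ (α : Type) [TEnc α] (t : α → ℕ) (R : α → List ℕ) (x w : α → List Bool),
  UPoly t → Poly R → Poly x → Poly w →
    Poly (fun a => (w a).foldl (fstep (t a)) (true, false, [(R a, x a, 0, t a, [])], []))

end Pool.Agent.W911.GP
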