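import Pool.Agent.W911.GP.Cnt
import Pool.Agent.W911.GP.Low
import Pool.Agent.W911.GP.Stms
import Pool.Agent.W908.S.SDefs

/-!
# The hard language is in `SPP`
-/

set_option autoImplicit false

namespace Pool.Agent.W911.GP

open Finset MeasureTheory Filter Topology Pool.Agent.NPC H568R2 Pool.Agent.H676
open Pool.Agent.H620R2.Gauge Pool.Agent.H591R3.PHG Pool.Agent.H622R2
open Pool.Agent.W911.AL
open Pool.Agent.W908.SP (IsSPP)

theorem fin_len (L : ℕ) : {w : List Bool | w.length = L}.Finite := List.finite_length_eq Bool L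

theorem ncard_tot : ∀ (L : ℕ) (P : List Bool → Bool),
    ({w : List Bool | w.length = L ∧ P w = true}.ncard : ℤ) =
      tot L (fun w => if P w = true then 1 else 0) := by
  intro L
  induction L with
  | zero =>
    intro P
    rw [tot]
    by_cases h : P [] = true
    · rw [if_pos h]
      have e : {w : List Bool | w.length = 0 ∧ P w = true} = {[]} := by
        ext w
        simp only [Set.mem_ofPred_eq, Set.mem_singleton_iff, List.length_eq_zero_iff]
        constructor
        · exact fun h => h.1
        · rintro rfl; exact ⟨rfl, h⟩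
      rw [e, Set.ncard_singleton]
      rfl
    · rw [if_neg h]
      have e : {w : List Bool | w.length = 0 ∧ P w = true} = ∅ := by
        ext w
        simp only [Set.mem_ofPred_eq, Set.mem_empty_iff_false, List.length_eq_zero_iff, iff_false]
        rintro ⟨rfl, h2⟩
        exact h h2
      rw [e, Set.ncard_empty]
      rfl
  | succ L ih =>
    intro P
    have e : {w : List Bool | w.length = L + 1 ∧ P w = true} =
        (fun w => false :: w) '' {w : List Bool | w.length = L ∧ P (false :: w) = true} ∪
        (fun w => true :: w) '' {w : List Bool | w.length = L ∧ P (true :: w) = true} := by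
      ext w
      constructor
      · rintro ⟨h1, h2⟩
        cases w with
        | nil => simp at h1
        | cons b w =>
          have h3 : w.length = L := by simpa using h1
          cases b with
          | false => exact Or.inl ⟨w, ⟨h3, h2⟩, rfl⟩
          | true => exact Or.inr ⟨w, ⟨h3, h2⟩, rfl⟩
      · rintro (⟨w, ⟨h1, h2⟩, rfl⟩ | ⟨w, ⟨h1, h2⟩, rfl⟩)
        · exact ⟨by simp [h1], h2⟩
        · exact ⟨by simp [h1], h2⟩
    have hd : Disjoint ((fun w => false :: w) '' {w : List Bool | w.length = L ∧
        P (false :: w) = true})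
        ((fun w => true :: w) '' {w : List Bool | w.length = L ∧ P (true :: w) = true}) := by
      rw [Set.disjoint_left]
      rintro w ⟨w1, _, rfl⟩ ⟨w2, _, h⟩
      simp at h
    rw [e, Set.ncard_union_eq hd (((fin_len L).subset fun w hw => hw.1).image _)
      (((fin_len L).subset fun w hw => hw.1).image _),
      Set.ncard_image_of_injective _ (List.cons_injective),
      Set.ncard_image_of_injective _ (List.cons_injective), Nat.cast_add,
      ih (fun w => P (false :: w)), ih (fun w => P (true :: w)), tot]

/-- The bound for the number of the true children of a gate. -/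
def tt (n : ℕ) : ℕ := Nat.size n ^ 4

/-- The exponents of the numbers of children, from the root down. -/
def RR (c n : ℕ) : List ℕ := (Sz (ell n) (kap c n)).reverse

/-- The run of the automaton. -/
def arun (c : ℕ) (x w : List Bool) : St :=
  w.foldl (fstep (tt x.length))
    (true, false, [(RR c x.length, x.take (ell x.length), 0, tt x.length, [])], [])

/-- The questions to the oracle. -/
def Qs (c : ℕ) (x w : List Bool) : List (List Bool) :=
  (arun c x w).2.2.2.flatMap (fun q => (List.range (8 * ell x.length)).map (fun l =>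
    q ++ (List.replicate (min l (8 * ell x.length)) ()).map (fun _ => true)))

theorem Qs_all (c : ℕ) (x w : List Bool) (A : Oracle) :
    ((Qs c x w).map A).all (fun b => !b) =
      (arun c x w).2.2.2.all (bitv A (8 * ell x.length)) := by
  rw [Bool.eq_iff_iff, List.all_eq_true, List.all_eq_true]
  unfold Qs bitv
  simp only [List.mem_map, List.mem_flatMap, List.mem_range, Bool.not_eq_true', List.map_replicate,
    decide_eq_true_eq]
  constructor
  · intro h q hq l hl
    have h2 := h (A (q ++ List.replicate l true)) ⟨_, ⟨q, hq, l, hl, rfl⟩, by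
      rw [Nat.min_eq_left hl.le]⟩
    exact h2
  · rintro h b ⟨_, ⟨q, hq, l, hl, rfl⟩, rfl⟩
    rw [Nat.min_eq_left hl.le]
    exact h q hq l hl

/-- The predicate, for the first two bits `b` and `d`, the rest `w` and the answer `r` of the
oracle for the leaves. -/
def acc (c n₀ : ℕ) (x : List Bool) (b d : Bool) (w : List Bool) (r : Bool) : Bool :=
  if x.length < n₀ then b
  else if d = true then (w.all (fun b => !b) || b)
  else if (arun c x w).1 = true ∧ (arun c x w).2.2.1 = [] ∧ r = true then (arun c x w).2.1
  else b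

/-- The verifier. -/
def Ver (c n₀ : ℕ) (A : Oracle) (y : List Bool) : List Bool :=
  [acc c n₀ (unpair y).2 ((unpair y).1.headD false) ((unpair y).1.tail.headD false)
    (unpair y).1.tail.tail
    (((Qs c (unpair y).2 (unpair y).1.tail.tail).map A).all (fun b => !b))]

theorem poly_headD {α : Type} [TEnc α] {l : α → List Bool} (hl : Poly l) :
    Poly (fun a => (l a).headD false) :=
  (Poly.head?_getD hl false).congr fun a => by cases l a <;> rfl

theorem poly_arun (hP : S_POLY) {α : Type} [TEnc α] (c : ℕ) {x w : α → List Bool} (hx : Poly x)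
    (hw : Poly w) : Poly (fun a => arun c (x a) (w a)) := by
  have hn : UPoly (fun a => (x a).length) := UPoly.length hx
  have ht : UPoly (fun a => tt (x a).length) := by
    have h1 := upoly_size hn
    exact (UPoly.mul (UPoly.mul h1 h1) (UPoly.mul h1 h1)).congr fun a => by
      show _ = List.replicate (tt (x a).length) ()
      congr 1
      unfold tt
      ring
  have hR : Poly (fun a => RR c (x a).length) := poly_Sz (upoly_ell hn) (upoly_kap c hn)
  exact hP α (fun a => tt (x a).length) (fun a => RR c (x a).length)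
    (fun a => (x a).take (ell (x a).length)) w ht hR (R1.poly_take hx (upoly_ell hn)) hw

theorem poly_acc (hP : S_POLY) (c n₀ : ℕ) {α : Type} [TEnc α] {x w : α → List Bool}
    {b d r : α → Bool} (hx : Poly x) (hw : Poly w) (hb : Poly b) (hd : Poly d) (hr : Poly r) :
    Poly (fun a => acc c n₀ (x a) (b a) (d a) (w a) (r a)) := by
  have hrun : Poly (fun a => arun c (x a) (w a)) := poly_arun hP c hx hw
  have hwall : Poly (fun a => (w a).all (fun b => !b)) :=
    Poly.all (p := fun _ b => !b) hw (Poly.not (Poly.snd Poly.id))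
  have hemp : Poly (fun a => decide ((arun c (x a) (w a)).2.2.1 = [])) :=
    (Poly.isEmpty (Poly.fst (Poly.snd (Poly.snd hrun)))).congr fun a => by
      cases (arun c (x a) (w a)).2.2.1 <;> simp
  have h1 : Poly (fun a => decide ((arun c (x a) (w a)).1 = true ∧
      (arun c (x a) (w a)).2.2.1 = [] ∧ r a = true)) :=
    Poly.decide_and (Poly.decide_eq (Poly.fst hrun) (NPC.Poly.const true))
      (Poly.decide_and hemp (Poly.decide_eq hr (NPC.Poly.const true)))
  have h2 : Poly (fun a => if (arun c (x a) (w a)).1 = true ∧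
      (arun c (x a) (w a)).2.2.1 = [] ∧ r a = true then (arun c (x a) (w a)).2.1 else b a) :=
    Poly.ite h1 (Poly.fst (Poly.snd hrun)) hb
  have h3 : Poly (fun a => if d a = true then ((w a).all (fun b => !b) || b a)
      else if (arun c (x a) (w a)).1 = true ∧
      (arun c (x a) (w a)).2.2.1 = [] ∧ r a = true then (arun c (x a) (w a)).2.1 else b a) :=
    Poly.ite (Poly.decide_eq hd (NPC.Poly.const true)) (Poly.or hwall hb) h2
  exact Poly.ite (Poly.decide_lt (UPoly.length hx).toPoly (NPC.Poly.const n₀)) hb h3

theorem poly_qs {α : Type} [TEnc α] {l : α → List (List Bool)} {n : α → ℕ} (hl : Poly l)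
    (hn : UPoly n) : Poly (fun a => (l a).flatMap (fun q => (List.range (n a)).map (fun i =>
      q ++ (List.replicate (min i (n a)) ()).map (fun _ => true)))) := by
  have h3 : UPoly (fun p : (α × List Bool) × ℕ => min p.2 (n p.1.1)) :=
    UPoly.of_le (Poly.min (Poly.snd Poly.id) (hn.toPoly.comp (Poly.fst (Poly.fst Poly.id))))
      (hn.comp (Poly.fst (Poly.fst Poly.id))) (fun p => min_le_right _ _)
  have h4 : Poly (fun p : (α × List Bool) × ℕ => p.1.2 ++
      (List.replicate (min p.2 (n p.1.1)) ()).map (fun _ => true)) :=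
    Poly.append (Poly.snd (Poly.fst Poly.id))
      (NPC.Poly.map (F := fun _ _ => true) h3 (NPC.Poly.const true))
  have h6 : UPoly (fun p : α × List Bool => n p.1) := hn.comp (Poly.fst Poly.id)
  have h5 : Poly (fun p : α × List Bool => (List.range (n p.1)).map (fun i =>
        p.2 ++ (List.replicate (min i (n p.1)) ()).map (fun _ => true))) :=
    NPC.Poly.map (F := fun (p : α × List Bool) (i : ℕ) => p.2 ++
      (List.replicate (min i (n p.1)) ()).map (fun _ => true)) h6.range h4
  exact Poly.flatMap (F := fun (a : α) (q : List Bool) => (List.range (n a)).map (fun i =>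
        q ++ (List.replicate (min i (n a)) ()).map (fun _ => true))) hl h5

theorem isFP_Ver (hP : S_POLY) (c n₀ : ℕ) (A : Oracle) : IsFP A (Ver c n₀ A) := by
  have i1 : Poly (fun y : List Bool => (unpair y).1) := Poly.fst poly_unpair
  have i2 : Poly (fun y : List Bool => (unpair y).2) := Poly.snd poly_unpair
  have hw : Poly (fun y : List Bool => (unpair y).1.tail.tail) := Poly.tail (Poly.tail i1)
  have hrun : Poly (fun y : List Bool => arun c (unpair y).2 (unpair y).1.tail.tail) :=
    poly_arun hP c i2 hw
  have h8 : UPoly (fun y : List Bool => 8 * ell (unpair y).2.length) :=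
    UPoly.mul (UPoly.const 8) (upoly_ell (UPoly.length i2))
  have hQ : Poly (fun y : List Bool => Qs c (unpair y).2 (unpair y).1.tail.tail) := by
    have hl : Poly (fun y : List Bool => (arun c (unpair y).2 (unpair y).1.tail.tail).2.2.2) :=
      Poly.snd (Poly.snd (Poly.snd hrun))
    exact poly_qs hl h8
  have j : Poly (fun p : List Bool × List Bool => p.1) := Poly.fst Poly.id
  have hall : Poly (fun p : List Bool × List Bool => p.2.all (fun b => !b)) :=
    Poly.all (p := fun _ b => !b) (Poly.snd Poly.id) (Poly.not (Poly.snd Poly.id))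
  have hH : Poly (fun p : List Bool × List Bool =>
      [acc c n₀ (unpair p.1).2 ((unpair p.1).1.headD false) ((unpair p.1).1.tail.headD false)
        (unpair p.1).1.tail.tail (p.2.all (fun b => !b))]) :=
    Poly.cons (poly_acc hP c n₀ (i2.comp j) (hw.comp j) (poly_headD (i1.comp j))
      (poly_headD (Poly.tail (i1.comp j))) hall) (NPC.Poly.const [])
  exact IsFP.tt (A := A) (H := fun p => [acc c n₀ (unpair p.1).2 ((unpair p.1).1.headD false)
    ((unpair p.1).1.tail.headD false) (unpair p.1).1.tail.tail (p.2.all (fun b => !b))]) hQ hH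

theorem tot_two (L : ℕ) (f : List Bool → ℤ) : tot (L + 2) f =
    tot L (fun w => f (false :: false :: w) + f (true :: false :: w)) +
    tot L (fun w => f (false :: true :: w) + f (true :: true :: w)) := by
  rw [tot_add, tot_add]
  show (tot L (fun w => f (false :: false :: w)) + tot L (fun w => f (false :: true :: w))) +
    (tot L (fun w => f (true :: false :: w)) + tot L (fun w => f (true :: true :: w))) = _
  ring

/-- the number of the accepted strings, for short inputs -/
theorem count_small (c n₀ : ℕ) (A : Oracle) (x : List Bool) (L : ℕ) (hx : x.length < n₀) :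
    {w : List Bool | w.length = L + 2 ∧ Ver c n₀ A (pairBits w x) = [true]}.ncard =
      2 ^ (L + 1) := by
  have h1 : {w : List Bool | w.length = L + 2 ∧ Ver c n₀ A (pairBits w x) = [true]} =
      {w : List Bool | w.length = L + 2 ∧ w.headD false = true} := by
    ext w
    simp only [Set.mem_ofPred_eq]
    unfold Ver acc
    rw [unpair_pairBits]
    simp only [hx, if_true, List.cons.injEq, and_true]
  rw [h1]
  have h2 := ncard_tot (L + 2) (fun w => w.headD false)
  rw [tot_two] at h2
  simp only [List.headD_cons, if_true, Bool.false_eq_true, if_false, zero_add, tot_one] at h2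
  have h3 : (({w : List Bool | w.length = L + 2 ∧ w.headD false = true}.ncard : ℕ) : ℤ) =
      ((2 ^ (L + 1) : ℕ) : ℤ) := by
    rw [h2]
    push_cast
    ring
  exact_mod_cast h3

/-- the number of the accepted strings, for long inputs -/
theorem count_large (c n₀ : ℕ) (A : Oracle) (x : List Bool) (L : ℕ) (hx : ¬ x.length < n₀)
    (hL : nd (tt x.length) (RR c x.length) ≤ L) :
    (({w : List Bool | w.length = L + 2 ∧ Ver c n₀ A (pairBits w x) = [true]}.ncard : ℕ) : ℤ) =
      2 ^ (L + 1) + (1 - Gv (tt x.length) (bitv A (8 * ell x.length)) (RR c x.length)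
        (x.take (ell x.length))) := by
  set v := bitv A (8 * ell x.length) with hv
  set P : List Bool → Bool := fun w => acc c n₀ x (w.headD false) (w.tail.headD false)
    w.tail.tail ((arun c x w.tail.tail).2.2.2.all v) with hPdef
  have h1 : {w : List Bool | w.length = L + 2 ∧ Ver c n₀ A (pairBits w x) = [true]} =
      {w : List Bool | w.length = L + 2 ∧ P w = true} := by
    ext w
    simp only [Set.mem_ofPred_eq]
    unfold Ver
    rw [unpair_pairBits, Qs_all]
    simp only [List.cons.injEq, and_true]
    exact Iff.rfl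
  rw [h1, ncard_tot, tot_two]
  have hR : RR c x.length ≠ [] := by
    intro h
    have h2 : (RR c x.length).length = kap c x.length + 1 := by
      unfold RR
      rw [List.length_reverse, Sz_length]
    rw [h] at h2
    simp at h2
  have e1 : ∀ w : List Bool, (if P (false :: false :: w) = true then (1 : ℤ) else 0) +
      (if P (true :: false :: w) = true then 1 else 0) = 1 + - wgt v (arun c x w) := by
    intro w
    have f1 : ∀ b : Bool, P (b :: false :: w) =
        if (arun c x w).1 = true ∧ (arun c x w).2.2.1 = [] ∧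
          (arun c x w).2.2.2.all v = true then (arun c x w).2.1 else b := by
      intro b
      simp only [hPdef, acc, List.headD_cons, List.tail_cons, hx, if_false, Bool.false_eq_true]
    rw [f1, f1]
    unfold wgt
    by_cases h2 : (arun c x w).1 = true ∧ (arun c x w).2.2.1 = [] ∧
          (arun c x w).2.2.2.all v = true
    · simp only [if_pos h2]
      cases h3 : (arun c x w).2.1 <;> simp
    · simp only [if_neg h2]
      simp
  have e2 : ∀ w : List Bool, (if P (false :: true :: w) = true then (1 : ℤ) else 0) +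
      (if P (true :: true :: w) = true then 1 else 0) =
      1 + (if w.all (fun b => !b) then 1 else 0) := by
    intro w
    have f1 : ∀ b : Bool, P (b :: true :: w) = (w.all (fun b => !b) || b) := by
      intro b
      simp only [hPdef, acc, List.headD_cons, List.tail_cons, hx, if_false, if_true]
    rw [f1, f1]
    cases h3 : w.all (fun b => !b) <;> simp
  simp only [e1, e2]
  rw [tot_add, tot_add, tot_one, tot_neg, tot_single]
  have h2 := tot_tree (tt x.length) v (RR c x.length) hR (x.take (ell x.length)) L hL
  have h3 : tot L (fun w => wgt v (arun c x w)) =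
      Gv (tt x.length) v (RR c x.length) (x.take (ell x.length)) := h2
  rw [h3, pow_succ]
  ring

/-- The hard language. -/
def HC (c n₀ : ℕ) (A : Oracle) : Set (List Bool) :=
  {x | n₀ ≤ x.length ∧ HV (kap c x.length) A (x.take (ell x.length)) = false}

theorem Gv_HV {c n : ℕ} {A : Oracle} {x₀ : List Bool} (hx : x₀.length = ell n)
    (hF : Few (tt n) (bitv A (8 * ell n)) (RR c n) x₀) :
    Gv (tt n) (bitv A (8 * ell n)) (RR c n) x₀ = if HV (kap c n) A x₀ then 1 else 0 := by
  rw [Gv_eq _ _ hF]
  have e : HV (kap c n) A x₀ = ((RR c n).foldr up (bitv A (8 * ell n))) x₀ := by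
    unfold HV RR
    rw [hx, List.foldr_reverse]
  rw [e]

/-- the bound for the lengths of the strings -/
theorem nd_le {t m : ℕ} : ∀ r : List ℕ, (∀ a ∈ r, a ≤ m) →
    nd t r + 1 ≤ ((t + 1) * (m + 3)) ^ r.length := by
  intro r
  induction r with
  | nil => intro _; simp [nd]
  | cons a r ih =>
    intro h
    have h1 := ih fun b hb => h b (List.mem_cons_of_mem _ hb)
    have ha : a ≤ m := h a (List.mem_cons_self ..)
    rw [List.length_cons, pow_succ]
    set Q := ((t + 1) * (m + 3)) ^ r.length with hQ
    have hQ1 : 1 ≤ Q := le_trans (Nat.le_add_left 1 _) h1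
    have e : nd t (a :: r) = t * (1 + a + nd t r) + 1 := rfl
    rw [e]
    have h2 : t * (1 + a + nd t r) ≤ t * (m * Q + Q) := by
      apply Nat.mul_le_mul_left
      have h3 : a ≤ m * Q := ha.trans (Nat.le_mul_of_pos_right _ hQ1)
      omega
    calc t * (1 + a + nd t r) + 1 + 1 ≤ t * (m * Q + Q) + 2 * Q := by omega
      _ ≤ Q * ((t + 1) * (m + 3)) := by nlinarith

theorem nd_poly (c : ℕ) : ∀ᶠ n : ℕ in atTop,
    nd (tt n) (RR c n) ≤ (2 * n) ^ (8 * (c + 1)) := by
  filter_upwards [size_tendsto.eventually (eventually_ge_atTop 12), eventually_ge_atTop 1]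
    with n hs hn
  set s := Nat.size n with hsdef
  have h1 := nd_le (t := tt n) (m := 64 * ell n) (RR c n) (fun a ha => by
    unfold RR at ha
    exact Sz_le _ _ a (List.mem_reverse.1 ha))
  have hlen : (RR c n).length = kap c n + 1 := by
    unfold RR
    rw [List.length_reverse, Sz_length]
  rw [hlen] at h1
  have h2 : (tt n + 1) * (64 * ell n + 3) ≤ s ^ 8 := by
    have e1 : tt n = s ^ 4 := rfl
    have e2 : ell n = s ^ 2 := rfl
    rw [e1, e2]
    have h3 : 1 ≤ s ^ 2 := Nat.one_le_pow _ _ (by omega)
    have h4 : 144 ≤ s ^ 2 := by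
      calc 144 = 12 ^ 2 := by norm_num
        _ ≤ s ^ 2 := Nat.pow_le_pow_left hs 2
    have h5 : s ^ 4 = s ^ 2 * s ^ 2 := by ring
    have h6 : s ^ 8 = s ^ 2 * s ^ 2 * (s ^ 2 * s ^ 2) := by ring
    rw [h5, h6]
    set z := s ^ 2 with hz
    have h7 : z * z + 1 ≤ 2 * (z * z) := by nlinarith
    have h8 : 64 * z + 3 ≤ 67 * z := by omega
    calc (z * z + 1) * (64 * z + 3) ≤ (2 * (z * z)) * (67 * z) := Nat.mul_le_mul h7 h8
      _ = (z * z) * (134 * z) := by ring
      _ ≤ (z * z) * (z * z) := Nat.mul_le_mul_left _ (Nat.mul_le_mul_right _ (by omega))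
  have h3 : ((tt n + 1) * (64 * ell n + 3)) ^ (kap c n + 1) ≤ (s ^ 8) ^ (kap c n + 1) :=
    Nat.pow_le_pow_left h2 _
  set sl := Nat.size s with hsl
  have h4 : s ≤ 2 ^ sl := (Nat.lt_size_self s).le
  have h5 : (s ^ 8) ^ (kap c n + 1) ≤ ((2 ^ sl) ^ 8) ^ (kap c n + 1) :=
    Nat.pow_le_pow_left (Nat.pow_le_pow_left h4 8) _
  have h6 : ((2 ^ sl) ^ 8) ^ (kap c n + 1) = 2 ^ (8 * (kap c n * sl) + 8 * sl) := by
    rw [← pow_mul, ← pow_mul]
    congr 1
    ring
  have h7 : kap c n * sl ≤ c * s := Nat.div_mul_le_self _ _
  have h8 : sl ≤ s := size_le s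
  have h9 : (2 : ℕ) ^ (8 * (kap c n * sl) + 8 * sl) ≤ 2 ^ (s * (8 * (c + 1))) := by
    apply Nat.pow_le_pow_right (by norm_num)
    calc 8 * (kap c n * sl) + 8 * sl ≤ 8 * (c * s) + 8 * s := by omega
      _ = s * (8 * (c + 1)) := by ring
  have h10 : 2 ^ s ≤ 2 * n := by
    obtain ⟨s', hs'⟩ : ∃ s', s = s' + 1 := ⟨s - 1, by omega⟩
    have h11 : 2 ^ s' ≤ n := Nat.lt_size.1 (by omega)
    rw [hs', pow_succ]
    omega
  have h11 : 2 ^ (s * (8 * (c + 1))) ≤ (2 * n) ^ (8 * (c + 1)) := by
    rw [pow_mul]
    exact Nat.pow_le_pow_left h10 _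
  omega

theorem HC_spp (hP : S_POLY) (c : ℕ) (A : Oracle)
    (hF : ∀ᶠ n : ℕ in atTop, ∀ x₀ : List Bool, x₀.length = ell n →
      Few (tt n) (bitv A (8 * ell n)) (RR c n) x₀) :
    ∃ n₀, IsSPP A (HC c n₀ A) := by
  have hev : ∀ᶠ n : ℕ in atTop, ell n ≤ n := by
    filter_upwards [size_tendsto.eventually (eventually_ge_atTop 16)] with n hs
    have h1 : ∀ s : ℕ, 16 ≤ s → s ^ 2 ≤ 2 ^ (s - 1) := by
      intro s hs
      obtain ⟨k, rfl⟩ : ∃ k, s = k + 16 := ⟨s - 16, by omega⟩
      induction k with
      | zero => norm_num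
      | succ k ih =>
        have h2 := ih (by omega)
        have h3 : k + 1 + 16 - 1 = (k + 16 - 1) + 1 := by omega
        rw [h3, pow_succ 2 (k + 16 - 1)]
        have h4 : (k + 1 + 16) ^ 2 ≤ 2 * (k + 16) ^ 2 := by nlinarith
        omega
    have h2 := h1 _ hs
    have h3 : 2 ^ (Nat.size n - 1) ≤ n := Nat.lt_size.1 (by omega)
    exact h2.trans h3
  obtain ⟨n₀, hn₀⟩ := eventually_atTop.1 (hF.and ((nd_poly c).and hev))
  refine ⟨n₀, Ver c n₀ A, (Polynomial.C 2 * Polynomial.X) ^ (8 * (c + 1)) + 1, isFP_Ver hP c n₀ A,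
    fun x => ?_⟩
  set n := x.length with hn
  have he : ((Polynomial.C 2 * Polynomial.X) ^ (8 * (c + 1)) + 1 : Polynomial ℕ).eval n =
      (2 * n) ^ (8 * (c + 1)) + 1 := by simp
  rw [he]
  set L := (2 * n) ^ (8 * (c + 1)) with hL
  by_cases hx : x.length < n₀
  · have h1 := count_small c n₀ A x L hx
    refine ⟨fun _ => h1, fun h => ?_⟩
    exact absurd h.1 (by omega)
  · have hx' : n₀ ≤ n := by omega
    obtain ⟨hF1, hnd, hell⟩ := hn₀ n hx'
    have hlen : (x.take (ell n)).length = ell n := by
      rw [List.length_take]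
      omega
    have h1 := count_large c n₀ A x L hx hnd
    rw [← hn, Gv_HV hlen (hF1 _ hlen)] at h1
    constructor
    · intro h
      have h2 : HV (kap c n) A (x.take (ell n)) = true := by
        by_contra h3
        exact h ⟨hx', by simpa using h3⟩
      rw [if_pos h2] at h1
      have h3 : (({w : List Bool | w.length = L + 2 ∧ Ver c n₀ A (pairBits w x) =
        [true]}.ncard : ℕ) : ℤ) = ((2 ^ (L + 1) : ℕ) : ℤ) := by
        rw [h1]
        push_cast
        ring
      exact_mod_cast h3
    · intro h
      have h2 : HV (kap c n) A (x.take (ell n)) = false := h.2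
      rw [h2] at h1
      have h3 : (({w : List Bool | w.length = L + 2 ∧ Ver c n₀ A (pairBits w x) =
        [true]}.ncard : ℕ) : ℤ) = ((2 ^ (L + 1) + 1 : ℕ) : ℤ) := by
        rw [h1]
        push_cast
        simp
      exact_mod_cast h3

end Pool.Agent.W911.GP
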