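import Pool.Agent.W911.GP.Fin
import Pool.Agent.W32.GP.Prob
import Pool.Agent.W578.GP.Poly

/-!
# `SPP` relative to a random oracle: the main theorem

The probability bound `S_PROB` was proved by helper32, the polynomial-time bound `S_POLY` by
helper578.
-/

set_option autoImplicit false

namespace Pool.Agent.W911.GP

open Finset MeasureTheory Filter Topology Pool.Agent.NPC H568R2 Pool.Agent.H676
open Pool.Agent.H620R2.Gauge Pool.Agent.H591R3.PHG Pool.Agent.H622R2
open Pool.Agent.W911.AL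
open Pool.Agent.W908.SP (IsSPP)

theorem prob_num {s ℓ κ t : ℕ} (h : (κ + 1) * (1 + 64 * ℓ) + 133 * ℓ + 2 * s ≤ t) :
    ((κ : ℝ) + 1) * 2 ^ (ℓ + 64 * ℓ * (κ + 1)) *
      ((33 * ℓ : ℝ) ^ (t + 1) / (t + 1).factorial) ≤ (1 / 2) ^ (2 * s) := by
  have h1 : (33 * ℓ : ℝ) ^ (t + 1) / (t + 1).factorial ≤ (1 / 2) ^ (t + 1) * 2 ^ (132 * ℓ) := by
    have e1 : (33 * ℓ : ℝ) ^ (t + 1) / (t + 1).factorial =
        (1 / 2) ^ (t + 1) * ((66 * ℓ : ℝ) ^ (t + 1) / (t + 1).factorial) := by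
      rw [← mul_div_assoc, ← mul_pow]
      congr 2
      ring
    rw [e1]
    apply mul_le_mul_of_nonneg_left _ (by positivity)
    refine (Real.pow_div_factorial_le_exp (66 * ℓ : ℝ) (by positivity) (t + 1)).trans ?_
    have e2 : Real.exp (66 * ℓ : ℝ) = Real.exp 1 ^ (66 * ℓ) := by
      rw [← Real.exp_nat_mul]
      push_cast
      rw [mul_one]
    rw [e2]
    calc Real.exp 1 ^ (66 * ℓ) ≤ 4 ^ (66 * ℓ) := by
          apply pow_le_pow_left₀ (Real.exp_pos _).le
          have := Real.exp_one_lt_d9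
          linarith
      _ = 2 ^ (132 * ℓ) := by
          rw [show (4 : ℝ) = 2 ^ 2 by norm_num, ← pow_mul]
          congr 1
          ring
  have h2 : (κ : ℝ) + 1 ≤ 2 ^ (κ + 1) := by
    have : κ + 1 ≤ 2 ^ (κ + 1) := Nat.lt_two_pow_self.le
    exact_mod_cast this
  have h3 : ((κ : ℝ) + 1) * 2 ^ (ℓ + 64 * ℓ * (κ + 1)) ≤
      2 ^ (κ + 1) * 2 ^ (ℓ + 64 * ℓ * (κ + 1)) := mul_le_mul_of_nonneg_right h2 (by positivity)
  calc ((κ : ℝ) + 1) * 2 ^ (ℓ + 64 * ℓ * (κ + 1)) *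
      ((33 * ℓ : ℝ) ^ (t + 1) / (t + 1).factorial)
      ≤ (2 ^ (κ + 1) * 2 ^ (ℓ + 64 * ℓ * (κ + 1))) * ((1 / 2) ^ (t + 1) * 2 ^ (132 * ℓ)) :=
        mul_le_mul h3 h1 (by positivity) (by positivity)
    _ = 2 ^ (κ + 1 + (ℓ + 64 * ℓ * (κ + 1)) + 132 * ℓ) * (1 / 2) ^ (t + 1) := by
        rw [pow_add _ _ (132 * ℓ), pow_add _ (κ + 1)]
        ring
    _ ≤ 2 ^ t * (1 / 2) ^ (t + 1) * (1 / 2) ^ (2 * s) * 2 := by
        have h4 : κ + 1 + (ℓ + 64 * ℓ * (κ + 1)) + 132 * ℓ + 2 * s ≤ t := by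
          have : (κ + 1) * (1 + 64 * ℓ) = κ + 1 + 64 * ℓ * (κ + 1) := by ring
          omega
        have h5 : (2 : ℝ) ^ (κ + 1 + (ℓ + 64 * ℓ * (κ + 1)) + 132 * ℓ) ≤
            2 ^ t * (1 / 2) ^ (2 * s) := by
          have h6 : (2 : ℝ) ^ (κ + 1 + (ℓ + 64 * ℓ * (κ + 1)) + 132 * ℓ) * 2 ^ (2 * s) ≤ 2 ^ t := by
            rw [← pow_add]
            exact pow_le_pow_right₀ (by norm_num) h4
          rw [one_div_pow, mul_one_div, le_div_iff₀ (by positivity)]
          exact h6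
        have h7 : (0 : ℝ) ≤ (1 / 2) ^ (t + 1) := by positivity
        calc (2 : ℝ) ^ (κ + 1 + (ℓ + 64 * ℓ * (κ + 1)) + 132 * ℓ) * (1 / 2) ^ (t + 1)
            ≤ (2 ^ t * (1 / 2) ^ (2 * s)) * (1 / 2) ^ (t + 1) :=
              mul_le_mul_of_nonneg_right h5 h7
          _ ≤ 2 ^ t * (1 / 2) ^ (t + 1) * (1 / 2) ^ (2 * s) * 2 := by
              have : (0 : ℝ) ≤ 2 ^ t * (1 / 2) ^ (t + 1) * (1 / 2) ^ (2 * s) := by positivity
              nlinarith
    _ = (1 / 2) ^ (2 * s) := by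
        have : (2 : ℝ) ^ t * (1 / 2) ^ (t + 1) * 2 = 1 := by
          rw [pow_succ, ← mul_assoc, ← mul_pow]
          norm_num
        calc (2 : ℝ) ^ t * (1 / 2) ^ (t + 1) * (1 / 2) ^ (2 * s) * 2 =
            (2 ^ t * (1 / 2) ^ (t + 1) * 2) * (1 / 2) ^ (2 * s) := by ring
          _ = _ := by rw [this, one_mul]

theorem ae_few (hP : S_PROB) : ∀ᵐ A ∂fair, ∀ c : ℕ, ∀ᶠ n : ℕ in atTop,
    ∀ x₀ : List Bool, x₀.length = ell n → Few (tt n) (bitv A (8 * ell n)) (RR c n) x₀ := by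
  rw [ae_all_iff]
  intro c
  classical
  set G : ℕ → Set Oracle := fun n => {A : Oracle | ∃ x : List Bool, x.length = ell n ∧
      ¬ Few (tt n) (bitv A (8 * ell n)) (Sz (ell n) (kap c n)).reverse x} with hG
  set s : ℕ → Set Oracle := fun n => if 65 * (c + 1) + 135 ≤ Nat.size n then G n else ∅ with hs
  have hμ : ∀ n : ℕ, fair (s n) ≤ ENNReal.ofReal (1 / (n : ℝ) ^ 2) := by
    intro n
    by_cases hc : 65 * (c + 1) + 135 ≤ Nat.size n
    · have e : s n = G n := if_pos hc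
      rw [e]
      have hn0 : 0 < n := by
        rw [← Nat.size_pos]
        omega
      set z := Nat.size n with hz
      have h5 : 5 ≤ ell n := by
        have : z ≤ z ^ 2 := Nat.le_self_pow (by norm_num) z
        show 5 ≤ z ^ 2
        omega
      refine (hP (ell n) (kap c n) (tt n) h5).trans (ENNReal.ofReal_le_ofReal ?_)
      have hκ : kap c n ≤ c * z := Nat.div_le_self _ _
      have hnum : (kap c n + 1) * (1 + 64 * ell n) + 133 * ell n + 2 * z ≤ tt n := by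
        have e1 : ell n = z ^ 2 := rfl
        have e2 : tt n = z ^ 4 := rfl
        rw [e1, e2]
        have hz1 : 1 ≤ z := by omega
        have g1 : kap c n + 1 ≤ (c + 1) * z := by nlinarith
        have g2 : 1 + 64 * z ^ 2 ≤ 65 * z ^ 2 := by nlinarith
        have g3 : (kap c n + 1) * (1 + 64 * z ^ 2) ≤ ((c + 1) * z) * (65 * z ^ 2) :=
          Nat.mul_le_mul g1 g2
        have g4 : 133 * z ^ 2 ≤ 133 * z ^ 3 :=
          Nat.mul_le_mul_left _ (Nat.pow_le_pow_right hz1 (by norm_num))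
        have g5 : 2 * z ≤ 2 * z ^ 3 :=
          Nat.mul_le_mul_left _ (Nat.le_self_pow (by norm_num) z)
        calc (kap c n + 1) * (1 + 64 * z ^ 2) + 133 * z ^ 2 + 2 * z
            ≤ ((c + 1) * z) * (65 * z ^ 2) + 133 * z ^ 3 + 2 * z ^ 3 := by omega
          _ = (65 * (c + 1) + 135) * z ^ 3 := by ring
          _ ≤ z * z ^ 3 := Nat.mul_le_mul_right _ hc
          _ = z ^ 4 := by ring
      refine (prob_num (s := z) hnum).trans ?_
      have h1 : (n : ℝ) ≤ 2 ^ z := by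
        have := (Nat.lt_size_self n).le
        exact_mod_cast this
      have hn1 : (0 : ℝ) < n := by exact_mod_cast hn0
      rw [one_div_pow]
      apply one_div_le_one_div_of_le (by positivity)
      rw [mul_comm, pow_mul]
      exact pow_le_pow_left₀ hn1.le h1 2
    · have e : s n = ∅ := if_neg hc
      rw [e, measure_empty]
      exact zero_le
  have hsum : ∑' n, fair (s n) ≠ ⊤ := by
    refine ne_top_of_le_ne_top ?_ (ENNReal.tsum_le_tsum hμ)
    rw [← ENNReal.ofReal_tsum_of_nonneg (fun n => by positivity)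
      (Real.summable_one_div_nat_pow.2 (by norm_num))]
    exact ENNReal.ofReal_ne_top
  filter_upwards [ae_eventually_notMem hsum] with A hA
  filter_upwards [hA, size_tendsto.eventually (eventually_ge_atTop (65 * (c + 1) + 135))]
    with n hn hc x₀ hx₀
  by_contra hF
  apply hn
  have e : s n = G n := if_pos hc
  rw [e]
  exact ⟨x₀, hx₀, hF⟩

theorem size_log {n : ℕ} (h : n ≠ 0) : Nat.size n = Nat.log 2 n + 1 := by
  apply le_antisymm
  · exact Nat.size_le.2 (Nat.lt_pow_succ_log_self (by norm_num) n)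
  · exact Nat.lt_size.2 (Nat.pow_log_le_self 2 h)

theorem k_le_kap (c : ℕ) : ∀ᶠ n : ℕ in atTop, ∀ k : ℕ,
    k * Nat.log 2 (Nat.log 2 n) ≤ c * Nat.log 2 n → k ≤ kap (2 * c) n := by
  filter_upwards [size_tendsto.eventually (eventually_ge_atTop 17)] with n hs k hk
  have hn : n ≠ 0 := by
    rintro rfl
    simp at hs
  have e1 : Nat.size n = Nat.log 2 n + 1 := size_log hn
  set a := Nat.log 2 n with ha
  have hz : Nat.size (Nat.size n) ≤ 2 * Nat.log 2 a := by
    have h0 : Nat.size n ≠ 0 := by omega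
    rw [size_log h0, e1]
    have h1 : Nat.log 2 (a + 1) ≤ Nat.log 2 a + 1 := by
      have h2 : Nat.log 2 (a * 2) = Nat.log 2 a + 1 :=
        Nat.log_mul_base (by norm_num) (by omega)
      rw [← h2]
      exact Nat.log_mono_right (by omega)
    have h3 : 2 ≤ Nat.log 2 a := by
      have : Nat.log 2 4 ≤ Nat.log 2 a := Nat.log_mono_right (by omega)
      have h4 : Nat.log 2 4 = 2 := by
        rw [show (4 : ℕ) = 2 ^ 2 by norm_num, Nat.log_pow (by norm_num)]
      omega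
    omega
  unfold kap
  rw [Nat.le_div_iff_mul_le (Nat.size_pos.2 (by omega))]
  calc k * Nat.size (Nat.size n) ≤ k * (2 * Nat.log 2 a) := Nat.mul_le_mul_left _ hz
    _ = 2 * (k * Nat.log 2 a) := by ring
    _ ≤ 2 * (c * a) := Nat.mul_le_mul_left _ hk
    _ = 2 * c * a := by ring
    _ ≤ 2 * c * Nat.size n := Nat.mul_le_mul_left _ (by omega)

theorem ell_le_self : ∀ᶠ n : ℕ in atTop, ell n ≤ n := by
  filter_upwards [size_tendsto.eventually (eventually_ge_atTop 16)] with n hs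
  have h1 : ∀ s : ℕ, 16 ≤ s → s ^ 2 ≤ 2 ^ (s - 1) := by
    intro s hs
    obtain ⟨k, rfl⟩ : ∃ k, s = k + 16 := ⟨s - 16, by omega⟩
    induction k with
    | zero => norm_num
    | succ k ih =>
      have h2 := ih (by omega)
      have h3 : k + 1 + 16 - 1 = (k + 16 - 1) + 1 := by omega
      rw [h3, pow_succ 2 (k + 16 - 1)]
      have h4 : (k + 1 + 16) ^ 2 ≤ 2 * (k + 16) ^ 2 := by nlinarith
      omega
  have h2 := h1 _ hs
  have h3 : 2 ^ (Nat.size n - 1) ≤ n := Nat.lt_size.1 (by omega)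
  exact h2.trans h3

/-- The main theorem. -/
theorem main : ∀ᵐ A ∂fair, ∀ c : ℕ, ∃ L : Set (List Bool), IsSPP A L ∧
    ∀ (k : ℕ → ℕ) (L' : Set (List Bool)), IsSigmaPoly A k L' →
      ∀ᶠ n : ℕ in atTop, k n * Nat.log 2 (Nat.log 2 n) ≤ c * Nat.log 2 n →
        ∃ x : List Bool, x.length = n ∧ ¬ (x ∈ L ↔ x ∈ L') := by
  filter_upwards [lower2, ae_few Pool.Agent.W32.GPP.prob] with A hA hF
  intro c
  obtain ⟨n₀, hL⟩ := HC_spp Pool.Agent.W578.GP.poly (2 * c) A (hF (2 * c))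
  refine ⟨HC (2 * c) n₀ A, hL, fun k L' hL' => ?_⟩
  filter_upwards [hA (2 * c) k L' hL', k_le_kap c, ell_le_self, eventually_ge_atTop n₀]
    with n h1 h2 h3 h4 hk
  obtain ⟨x₀, hx₀, hx⟩ := h1 (h2 (k n) hk) h3
  have hlen : (x₀ ++ List.replicate (n - ell n) false).length = n := by
    rw [List.length_append, List.length_replicate, hx₀]
    omega
  refine ⟨x₀ ++ List.replicate (n - ell n) false, hlen, ?_⟩
  have h5 : (x₀ ++ List.replicate (n - ell n) false) ∈ HC (2 * c) n₀ A ↔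
      HV (kap (2 * c) n) A x₀ = false := by
    unfold HC
    rw [Set.mem_ofPred_eq, hlen]
    have h6 : (x₀ ++ List.replicate (n - ell n) false).take (ell n) = x₀ := by
      rw [← hx₀, List.take_left']
      rfl
    rw [h6]
    exact ⟨fun h => h.2, fun h => ⟨h4, h⟩⟩
  rw [h5]
  exact hx

end Pool.Agent.W911.GP
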